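import Mathlib

/-!
Malcev presentations of group-embeddable semigroups, and Malcev coherence.
-/

namespace Pool.Agent.Helper45

universe u v

/-- The value in the free group on `A` of a nonempty positive word over `A`. -/
def posWord {A : Type u} : FreeSemigroup A →ₙ* FreeGroup A :=
  FreeSemigroup.lift FreeGroup.of

/-- The relators `u v⁻¹`, for `(u, v) ∈ ρ`, of the group `Gp⟨A | ρ⟩`. -/
def relators {A : Type u} (ρ : Set (FreeSemigroup A × FreeSemigroup A)) : Set (FreeGroup A) :=
  {r | ∃ p ∈ ρ, r = posWord p.1 * (posWord p.2)⁻¹}

/-- The element of the group `Gp⟨A | ρ⟩` (generators `A`, relations `u = v` for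
`(u, v) ∈ ρ`) that is represented by the positive word `w`. -/
def gpValue {A : Type u} (ρ : Set (FreeSemigroup A × FreeSemigroup A)) (w : FreeSemigroup A) :
    PresentedGroup (relators ρ) :=
  PresentedGroup.mk (relators ρ) (posWord w)

/-- `ι : A → S` together with `ρ ⊆ A⁺ × A⁺` is a Malcev presentation of the semigroup `S`:
the image of `ι` generates `S`, and two words have the same value in `S` if and only if
they represent the same element of the group `Gp⟨A | ρ⟩`. -/
def IsMalcevPresentation {S : Type v} [Semigroup S] {A : Type u} (ι : A → S)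
    (ρ : Set (FreeSemigroup A × FreeSemigroup A)) : Prop :=
  Subsemigroup.closure (Set.range ι) = ⊤ ∧
    ∀ x y : FreeSemigroup A,
      FreeSemigroup.lift ι x = FreeSemigroup.lift ι y ↔ gpValue ρ x = gpValue ρ y

/-- The semigroup `S` has a finite Malcev presentation. -/
def HasFiniteMalcevPresentation (S : Type v) [Semigroup S] : Prop :=
  ∃ (n : ℕ) (ι : Fin n → S) (ρ : Set (FreeSemigroup (Fin n) × FreeSemigroup (Fin n))),
    ρ.Finite ∧ IsMalcevPresentation ι ρ

/-- `G` is Malcev coherent: every finitely generated subsemigroup of `G` has a finite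
Malcev presentation. -/
def MalcevCoherent (G : Type v) [Semigroup G] : Prop :=
  ∀ S : Subsemigroup G, (∃ T : Set G, T.Finite ∧ Subsemigroup.closure T = S) →
    HasFiniteMalcevPresentation S

end Pool.Agent.Helper45
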