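import Mathlib
import Pool.Agent.Helper45.MalcevDefs

namespace Pool.Agent.Helper45

open Subgroup

section Compactness

variable {G : Type*} [Group G]

lemma exists_finite_of_mem_normalClosure {R : Set G} {x : G} (hx : x ∈ normalClosure R) :
    ∃ R₀ ⊆ R, R₀.Finite ∧ x ∈ normalClosure R₀ := by
  unfold Subgroup.normalClosure at hx
  induction hx using Subgroup.closure_induction with
  | mem y hy =>
    obtain ⟨r, hr, hc⟩ := Group.mem_conjugatesOfSet_iff.1 hy
    refine ⟨{r}, by simpa using hr, Set.finite_singleton r, ?_⟩
    exact Subgroup.conjugatesOfSet_subset_normalClosure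
      (Group.mem_conjugatesOfSet_iff.2 ⟨r, rfl, hc⟩)
  | one => exact ⟨∅, Set.empty_subset _, Set.finite_empty, one_mem _⟩
  | mul y z _ _ hy hz =>
    obtain ⟨R₁, h1, f1, m1⟩ := hy
    obtain ⟨R₂, h2, f2, m2⟩ := hz
    refine ⟨R₁ ∪ R₂, Set.union_subset h1 h2, f1.union f2, mul_mem ?_ ?_⟩
    · exact normalClosure_mono Set.subset_union_left m1
    · exact normalClosure_mono Set.subset_union_right m2
  | inv y _ hy =>
    obtain ⟨R₁, h1, f1, m1⟩ := hy
    exact ⟨R₁, h1, f1, inv_mem m1⟩

lemma exists_finite_of_subset_normalClosure {R E : Set G} (hE : E.Finite)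
    (h : E ⊆ normalClosure R) :
    ∃ R₀ ⊆ R, R₀.Finite ∧ E ⊆ normalClosure R₀ := by
  classical
  induction E, hE using Set.Finite.induction_on with
  | empty => exact ⟨∅, Set.empty_subset _, Set.finite_empty, Set.empty_subset _⟩
  | @insert e E _ _ ih =>
    obtain ⟨R₁, h1, f1, m1⟩ := ih ((Set.subset_insert _ _).trans h)
    obtain ⟨R₂, h2, f2, m2⟩ := exists_finite_of_mem_normalClosure (h (Set.mem_insert _ _))
    refine ⟨R₁ ∪ R₂, Set.union_subset h1 h2, f1.union f2, ?_⟩
    rintro x (rfl | hx)
    · exact normalClosure_mono Set.subset_union_right m2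
    · exact normalClosure_mono Set.subset_union_left (m1 hx)

end Compactness

section Words

variable {A : Type*} {G : Type*} [Group G]

/-- value in the free group of a positive word given as a list -/
def pos (l : List A) : FreeGroup A := (l.map FreeGroup.of).prod

/-- value in `G` of a list of letters -/
def val (a : A → G) (l : List A) : G := (l.map a).prod

@[simp] lemma pos_nil : pos ([] : List A) = 1 := rfl
@[simp] lemma pos_cons (x : A) (l : List A) : pos (x :: l) = FreeGroup.of x * pos l := by
  simp [pos]
@[simp] lemma pos_append (l m : List A) : pos (l ++ m) = pos l * pos m := by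
  simp [pos]
@[simp] lemma val_nil (a : A → G) : val a [] = 1 := rfl
@[simp] lemma val_cons (a : A → G) (x : A) (l : List A) : val a (x :: l) = a x * val a l := by
  simp [val]
@[simp] lemma val_append (a : A → G) (l m : List A) : val a (l ++ m) = val a l * val a m := by
  simp [val]

@[simp] lemma lift_pos (a : A → G) (l : List A) : FreeGroup.lift a (pos l) = val a l := by
  induction l with
  | nil => simp
  | cons x l ih => simp [ih]

/-- the set of positive relators that hold for `a : A → G` -/
def Rel (a : A → G) : Set (FreeGroup A) :=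
  {r | ∃ u v : List A, u ≠ [] ∧ v ≠ [] ∧ val a u = val a v ∧ r = pos u * (pos v)⁻¹}

/-- finitely many positive relators imply all of them -/
def FinRel (a : A → G) : Prop :=
  ∃ E : Set (FreeGroup A), E.Finite ∧ E ⊆ Rel a ∧ Rel a ⊆ normalClosure E

lemma finRel_of_finite (a : A → G) (E : Set (FreeGroup A)) (hE : E.Finite)
    (h1 : E ⊆ normalClosure (Rel a)) (h2 : Rel a ⊆ normalClosure E) : FinRel a := by
  obtain ⟨R₀, hR, hf, hm⟩ := exists_finite_of_subset_normalClosure hE h1
  exact ⟨R₀, hf, hR, h2.trans (normalClosure_le_normal hm)⟩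

/-- the group-theoretic property: every finite family has finitely based positive relations -/
def FR (G : Type*) [Group G] : Prop := ∀ (n : ℕ) (a : Fin n → G), FinRel a

/-- in the quotient by the positive relations, words (possibly empty) with equal values agree -/
lemma mem_of_val_eq (a : A → G) {u v : List A} (h : val a u = val a v) :
    pos u * (pos v)⁻¹ ∈ normalClosure (Rel a) := by
  have key : ∀ w : List A, val a w = 1 → pos w ∈ normalClosure (Rel a) := by
    intro w hw
    rcases eq_or_ne w [] with rfl | hne
    · simpa using one_mem _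
    · have : pos (w ++ w) * (pos w)⁻¹ ∈ normalClosure (Rel a) := by
        apply subset_normalClosure
        exact ⟨w ++ w, w, by simp [hne], hne, by simp [hw], rfl⟩
      simpa using this
  rcases eq_or_ne u [] with rfl | hu
  · have := key v (by simpa using h.symm)
    simpa using inv_mem this
  rcases eq_or_ne v [] with rfl | hv
  · have := key u (by simpa using h)
    simpa using this
  exact subset_normalClosure ⟨u, v, hu, hv, h, rfl⟩

end Words

end Pool.Agent.Helper45
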