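import Mathlib
import Pool.Agent.Helper45.MalcevCore

set_option linter.style.haveILetI false

namespace Pool.Agent.Helper45

open Subgroup

section Noeth

variable {G : Type*} [Group G]

lemma fg_map {H : Type*} [Group H] (f : G →* H) {J : Subgroup G} (h : J.FG) : (J.map f).FG := by
  classical
  obtain ⟨S, rfl⟩ := h
  exact ⟨S.image f, by rw [Finset.coe_image, ← MonoidHom.map_closure]⟩

lemma fg_of_le_fg_comm (M J : Subgroup G) (hM : M.FG)
    (hcomm : ∀ x ∈ M, ∀ y ∈ M, x * y = y * x) (hJ : J ≤ M) : J.FG := by
  letI : CommGroup M :=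
    { (inferInstance : Group M) with
      mul_comm := fun x y => Subtype.ext (hcomm _ x.2 _ y.2) }
  haveI : Group.FG M := (Group.fg_iff_subgroup_fg M).2 hM
  haveI : AddGroup.FG (Additive M) := inferInstance
  haveI : Module.Finite ℤ (Additive M) := Module.Finite.iff_addGroup_fg.2 inferInstance
  haveI : IsNoetherian ℤ (Additive M) := inferInstance
  have h1 : (AddSubgroup.toIntSubmodule (Subgroup.toAddSubgroup (J.subgroupOf M))).FG :=
    IsNoetherian.noetherian _
  have h2 : (Subgroup.toAddSubgroup (J.subgroupOf M)).FG := by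
    have := (Submodule.fg_iff_addSubgroup_fg _).1 h1
    simpa using this
  have h3 : (J.subgroupOf M).FG := (Subgroup.fg_iff_add_fg _).2 h2
  have h4 : ((J.subgroupOf M).map M.subtype).FG := fg_map _ h3
  rwa [Subgroup.map_subgroupOf_eq_of_le hJ] at h4

end Noeth

section Ext

variable {G G' : Type*} [Group G] [Group G']

lemma val_comp {A : Type*} (a : A → G) (π : G →* G') (l : List A) :
    val (π ∘ a) l = π (val a l) := by
  induction l with
  | nil => simp
  | cons x l ih => simp [ih]

/-- every positive word can be completed on the right to a word with value in `C` -/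
lemma exists_completion {A : Type*} (a : A → G) (C : Subgroup G) [C.FiniteIndex] (v : List A) :
    ∃ m : List A, val a v * val a m ∈ C := by
  obtain ⟨k, hk, -, hm⟩ := Subgroup.exists_pow_mem_of_index_ne_zero
    (Subgroup.FiniteIndex.index_ne_zero (H := C)) (val a v)
  have hrep : ∀ j : ℕ, val a (List.replicate j v).flatten = val a v ^ j := by
    intro j
    induction j with
    | zero => simp
    | succ j ih => rw [List.replicate_succ, List.flatten_cons, val_append, ih, pow_succ']
  refine ⟨(List.replicate (k - 1) v).flatten, ?_⟩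
  rw [hrep, ← pow_succ', Nat.sub_add_cancel hk]
  exact hm

/-- the preimage of `C` in the free group is generated by positive words -/
lemma mem_closure_pos {A : Type*} (a : A → G) (C : Subgroup G) [C.FiniteIndex]
    (x : FreeGroup A) (hx : FreeGroup.lift a x ∈ C) :
    x ∈ closure {y | ∃ w : List A, val a w ∈ C ∧ y = pos w} := by
  set P := closure {y : FreeGroup A | ∃ w : List A, val a w ∈ C ∧ y = pos w} with hP
  have hpos : ∀ w : List A, val a w ∈ C → pos w ∈ P := fun w hw =>
    subset_closure ⟨w, hw, rfl⟩
  have key : ∀ y : FreeGroup A, ∃ w : List A, y * pos w ∈ P := by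
    intro y
    have hy : y ∈ closure (Set.range (FreeGroup.of : A → FreeGroup A)) := by
      rw [FreeGroup.closure_range_of]; trivial
    induction hy using Subgroup.closure_induction_right with
    | one => exact ⟨[], by simp [one_mem]⟩
    | mul_right y _ z hz ih =>
      obtain ⟨b, rfl⟩ := hz
      obtain ⟨w, hw⟩ := ih
      obtain ⟨k, hk, -, hm⟩ := Subgroup.exists_pow_mem_of_index_ne_zero
        (Subgroup.FiniteIndex.index_ne_zero (H := C)) (val a w)
      have hrep : ∀ j : ℕ, val a (List.replicate j w).flatten = val a w ^ j := by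
        intro j
        induction j with
        | zero => simp
        | succ j ih => rw [List.replicate_succ, List.flatten_cons, val_append, ih, pow_succ']
      set z := (List.replicate (k - 1) w).flatten with hzdef
      have hzw : val a (z ++ w) ∈ C := by
        rw [val_append, hzdef, hrep, ← pow_succ, Nat.sub_add_cancel hk]
        exact hm
      obtain ⟨w', hw'⟩ := exists_completion a C (z ++ b :: [])
      refine ⟨w', ?_⟩
      have e1 : y * FreeGroup.of b * pos w' =
          (y * pos w) * (pos (z ++ w))⁻¹ * pos ((z ++ b :: []) ++ w') := by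
        simp only [pos_append, pos_cons, pos_nil]
        group
      rw [e1]
      refine mul_mem (mul_mem hw (inv_mem (hpos _ hzw))) (hpos _ ?_)
      rw [val_append]; exact hw'
    | mul_inv_cancel y _ z hz ih =>
      obtain ⟨b, rfl⟩ := hz
      obtain ⟨w, hw⟩ := ih
      refine ⟨b :: w, ?_⟩
      have : y * (FreeGroup.of b)⁻¹ * pos (b :: w) = y * pos w := by
        simp only [pos_cons]; group
      rw [this]; exact hw
  obtain ⟨w, hw⟩ := key x
  have hle : P ≤ C.comap (FreeGroup.lift a) := by
    rw [hP, closure_le]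
    rintro y ⟨w, hw, rfl⟩
    simpa using hw
  have h1 : FreeGroup.lift a x * val a w ∈ C := by
    have := hle hw
    simpa using this
  have h2 : val a w ∈ C := by
    have := mul_mem (inv_mem hx) h1
    simpa [mul_assoc] using this
  have := mul_mem hw (inv_mem (hpos w h2))
  simpa [mul_assoc] using this

/-- the central trick -/
lemma commutator_mem (n : ℕ) (a : Fin n → G) (π : G →* G') (C : Subgroup G) [C.FiniteIndex]
    (hcomm : ∀ x ∈ π.ker, ∀ c ∈ C, x * c = c * x)
    (r : FreeGroup (Fin n)) (hr : r ∈ Rel (π ∘ a))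
    (x : FreeGroup (Fin n)) (hx : FreeGroup.lift a x ∈ C) :
    r * x * r⁻¹ * x⁻¹ ∈ normalClosure (Rel a) := by
  obtain ⟨u, v, hu, hv, huv, rfl⟩ := hr
  rw [val_comp, val_comp] at huv
  set N := normalClosure (Rel a) with hN
  let q : FreeGroup (Fin n) →* FreeGroup (Fin n) ⧸ N := QuotientGroup.mk' N
  have hq : ∀ s t : List (Fin n), val a s = val a t → q (pos s) = q (pos t) := by
    intro s t hst
    have := mem_of_val_eq a hst
    rw [← hN] at this
    have h2 : q (pos s * (pos t)⁻¹) = 1 := (QuotientGroup.eq_one_iff _).2 this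
    rw [map_mul, map_inv] at h2
    exact mul_inv_eq_one.1 h2
  set κ := q (pos u) * (q (pos v))⁻¹ with hκ
  have hnker : val a u * (val a v)⁻¹ ∈ π.ker := by
    rw [MonoidHom.mem_ker, map_mul, map_inv, huv, mul_inv_cancel]
  have c1 : ∀ m : List (Fin n), val a v * val a m ∈ C → Commute κ (q (pos v) * q (pos m)) := by
    intro m hm
    have hval : val a (u ++ m ++ v) = val a (v ++ m ++ u) := by
      simp only [val_append]
      have := hcomm _ hnker _ hm
      have e : val a u = (val a u * (val a v)⁻¹) * val a v := by group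
      calc val a u * val a m * val a v
          = (val a u * (val a v)⁻¹) * (val a v * val a m) * val a v := by group
        _ = (val a v * val a m) * (val a u * (val a v)⁻¹) * val a v := by rw [this]
        _ = val a v * val a m * val a u := by group
    have := hq _ _ hval
    simp only [pos_append, map_mul] at this
    show κ * (q (pos v) * q (pos m)) = (q (pos v) * q (pos m)) * κ
    rw [hκ]
    calc q (pos u) * (q (pos v))⁻¹ * (q (pos v) * q (pos m))
        = (q (pos u) * q (pos m) * q (pos v)) * (q (pos v))⁻¹ := by group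
      _ = (q (pos v) * q (pos m) * q (pos u)) * (q (pos v))⁻¹ := by rw [this]
      _ = (q (pos v) * q (pos m)) * (q (pos u) * (q (pos v))⁻¹) := by group
  obtain ⟨m₀, hm₀⟩ := exists_completion a C v
  have c2 : ∀ w : List (Fin n), val a w ∈ C → Commute κ (q (pos w)) := by
    intro w hw
    have d1 := c1 m₀ hm₀
    have d2 := c1 (m₀ ++ w) (by rw [val_append, ← mul_assoc]; exact mul_mem hm₀ hw)
    have : q (pos w) = (q (pos v) * q (pos m₀))⁻¹ * (q (pos v) * q (pos (m₀ ++ w))) := by
      rw [pos_append, map_mul]; group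
    rw [this]
    exact d1.inv_right.mul_right d2
  have c3' : ∀ y ∈ closure {y | ∃ w : List (Fin n), val a w ∈ C ∧ y = pos w},
      Commute κ (q y) := by
    intro y hy
    induction hy using Subgroup.closure_induction with
    | mem y hy => obtain ⟨w, hw, rfl⟩ := hy; exact c2 w hw
    | one => simp
    | mul y z _ _ hy hz => rw [map_mul]; exact hy.mul_right hz
    | inv y _ hy => rw [map_inv]; exact hy.inv_right
  have c3 : Commute κ (q x) := c3' x (mem_closure_pos a C x hx)
  refine (QuotientGroup.eq_one_iff _).1 ?_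
  show q (pos u * (pos v)⁻¹ * x * (pos u * (pos v)⁻¹)⁻¹ * x⁻¹) = 1
  have hk : q (pos u * (pos v)⁻¹) = κ := by simp [hκ]
  rw [map_mul, map_mul, map_mul, map_inv, map_inv, hk, c3.eq]
  group

/-- **Extension theorem.** Let `π : G → G'` be a homomorphism and `C` a normal subgroup of
finite index of `G` that contains the kernel of `π` and centralises it.  If every finite family
in `G'` has finitely based positive relations, so has every finite family in `G`. -/
theorem FR_of_hom (π : G →* G') (C : Subgroup G) [C.Normal] [C.FiniteIndex]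
    (hker : π.ker ≤ C) (hcomm : ∀ x ∈ π.ker, ∀ c ∈ C, x * c = c * x) (h : FR G') : FR G := by
  intro n a
  obtain ⟨E, hEf, hE1, hE2⟩ := h n (π ∘ a)
  have hM : normalClosure (Rel (π ∘ a)) = normalClosure E :=
    le_antisymm (normalClosure_le_normal hE2) (normalClosure_mono hE1)
  have hNM : normalClosure (Rel a) ≤ normalClosure (Rel (π ∘ a)) := by
    apply normalClosure_mono
    rintro r ⟨u, v, hu, hv, huv, rfl⟩
    exact ⟨u, v, hu, hv, by rw [val_comp, val_comp, huv], rfl⟩
  let Φ : Subgroup (FreeGroup (Fin n)) := C.comap (FreeGroup.lift a)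
  haveI hΦi : Φ.FiniteIndex := by
    constructor
    rw [Subgroup.index_comap]
    haveI : C.IsFiniteRelIndex (FreeGroup.lift a).range := isFiniteRelIndex_of_finiteIndex
    exact Subgroup.relIndex_ne_zero
  haveI hΦn : Φ.Normal := inferInstance
  haveI : Group.FG Φ := inferInstance
  obtain ⟨Y, hY⟩ : Φ.FG := (Group.fg_iff_subgroup_fg Φ).1 inferInstance
  have hMΦ : normalClosure (Rel (π ∘ a)) ≤ Φ := by
    apply normalClosure_le_normal
    rintro r ⟨u, v, hu, hv, huv, rfl⟩
    show FreeGroup.lift a (pos u * (pos v)⁻¹) ∈ C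
    apply hker
    rw [MonoidHom.mem_ker]
    rw [val_comp, val_comp] at huv
    simp [huv]
  have hE1fin : (Set.image2 (fun r y : FreeGroup (Fin n) => r * y * r⁻¹ * y⁻¹) E Y).Finite :=
    Set.Finite.image2 _ hEf Y.finite_toSet
  have hE1sub : (Set.image2 (fun r y : FreeGroup (Fin n) => r * y * r⁻¹ * y⁻¹) E Y) ⊆
      normalClosure (Rel a) := by
    rintro z ⟨r, hr, y, hy, rfl⟩
    refine commutator_mem n a π C hcomm r (hE1 hr) y ?_
    have : y ∈ Φ := by rw [← hY]; exact subset_closure hy
    exact this
  obtain ⟨R₁, hR₁sub, hR₁f, hR₁⟩ := exists_finite_of_subset_normalClosure hE1fin hE1sub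
  let q : FreeGroup (Fin n) →* FreeGroup (Fin n) ⧸ normalClosure R₁ :=
    QuotientGroup.mk' (normalClosure R₁)
  have hqs : Function.Surjective q := QuotientGroup.mk'_surjective _
  have hcE : ∀ r ∈ E, ∀ y ∈ Φ, Commute (q r) (q y) := by
    intro r hr y hy
    rw [← hY] at hy
    induction hy using Subgroup.closure_induction with
    | mem y hy =>
      have h1 : r * y * r⁻¹ * y⁻¹ ∈ normalClosure R₁ := hR₁ ⟨r, hr, y, hy, rfl⟩
      have h2 : q (r * y * r⁻¹ * y⁻¹) = 1 := (QuotientGroup.eq_one_iff _).2 h1
      simp only [map_mul, map_inv] at h2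
      show q r * q y = q y * q r
      calc q r * q y = (q r * q y * (q r)⁻¹ * (q y)⁻¹) * (q y * q r) := by group
        _ = q y * q r := by rw [h2, one_mul]
    | one => simp
    | mul y z _ _ hy hz => rw [map_mul]; exact hy.mul_right hz
    | inv y _ hy => rw [map_inv]; exact hy.inv_right
  -- the image of the big relation subgroup is central in the image of `Φ`
  have hcM : ∀ m ∈ normalClosure (Rel (π ∘ a)), ∀ y ∈ Φ, Commute (q m) (q y) := by
    intro m hm
    rw [hM] at hm
    unfold Subgroup.normalClosure at hm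
    induction hm using Subgroup.closure_induction with
    | mem m hm =>
      intro y hy
      obtain ⟨r, hr, hc⟩ := Group.mem_conjugatesOfSet_iff.1 hm
      obtain ⟨c, rfl⟩ := isConj_iff.1 hc
      have h1 := hcE r hr (c⁻¹ * y * c) (by
        have := hΦn.conj_mem y hy c⁻¹
        simpa using this)
      show q (c * r * c⁻¹) * q y = q y * q (c * r * c⁻¹)
      have h2 : q r * (q c⁻¹ * q y * q c) = (q c⁻¹ * q y * q c) * q r := by
        have := h1.eq
        simpa only [map_mul] using this
      simp only [map_mul, map_inv] at h2 ⊢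
      calc q c * q r * (q c)⁻¹ * q y
          = q c * (q r * ((q c)⁻¹ * q y * q c)) * (q c)⁻¹ := by group
        _ = q c * (((q c)⁻¹ * q y * q c) * q r) * (q c)⁻¹ := by rw [h2]
        _ = q y * (q c * q r * (q c)⁻¹) := by group
    | one => intro y hy; simp
    | mul m m' _ _ hm hm' =>
      intro y hy; rw [map_mul]; exact (hm y hy).mul_left (hm' y hy)
    | inv m _ hm => intro y hy; rw [map_inv]; exact (hm y hy).inv_left
  -- finite generation
  have hMfg : ((normalClosure (Rel (π ∘ a))).map q).FG := by
    have hfin : Finite (FreeGroup (Fin n) ⧸ Φ) := Subgroup.finite_quotient_of_finiteIndex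
    let T : Set (FreeGroup (Fin n)) := Set.range (Quotient.out : FreeGroup (Fin n) ⧸ Φ → _)
    have hTf : T.Finite := Set.finite_range _
    let W : Set (FreeGroup (Fin n) ⧸ normalClosure R₁) :=
      Set.image2 (fun t r => q t * q r * (q t)⁻¹) T E
    have hWf : W.Finite := Set.Finite.image2 _ hTf hEf
    have himg : (q '' (Group.conjugatesOfSet E)) ⊆ W := by
      rintro _ ⟨z, hz, rfl⟩
      obtain ⟨r, hr, hc⟩ := Group.mem_conjugatesOfSet_iff.1 hz
      obtain ⟨c, rfl⟩ := isConj_iff.1 hc
      set t := (Quotient.out (QuotientGroup.mk c : FreeGroup (Fin n) ⧸ Φ)) with ht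
      refine ⟨t, ⟨_, rfl⟩, r, hr, ?_⟩
      have hx : t⁻¹ * c ∈ Φ := by
        rw [← QuotientGroup.eq, ht]
        exact Quotient.out_eq _
      have h1 := (hcE r hr _ hx).eq
      have hc' : c = t * (t⁻¹ * c) := by group
      show q t * q r * (q t)⁻¹ = q (c * r * c⁻¹)
      simp only [map_mul, map_inv] at h1 ⊢
      calc q t * q r * (q t)⁻¹
          = q t * (q r * ((q t)⁻¹ * q c)) * (q c)⁻¹ := by group
        _ = q t * (((q t)⁻¹ * q c) * q r) * (q c)⁻¹ := by rw [h1]
        _ = q c * q r * (q c)⁻¹ := by group
    have hfin2 : (q '' (Group.conjugatesOfSet E)).Finite := hWf.subset himg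
    have : (normalClosure (Rel (π ∘ a))).map q = closure (q '' (Group.conjugatesOfSet E)) := by
      have hdef : normalClosure E = closure (Group.conjugatesOfSet E) := rfl
      rw [hM, hdef, MonoidHom.map_closure]
    rw [this]
    exact ⟨hfin2.toFinset, by simp⟩
  have hJfg : ((normalClosure (Rel a)).map q).FG := by
    refine fg_of_le_fg_comm _ _ hMfg ?_ (Subgroup.map_mono hNM)
    rintro _ ⟨x, hx, rfl⟩ _ ⟨y, hy, rfl⟩
    exact (hcM x hx y (hMΦ hy)).eq
  haveI hJn : ((normalClosure (Rel a)).map q).Normal :=
    Subgroup.Normal.map inferInstance q hqs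
  haveI : Group.FG ((normalClosure (Rel a)).map q) := (Group.fg_iff_subgroup_fg _).2 hJfg
  have hJ : ((normalClosure (Rel a)).map q).IsFinitelyNormallyGenerated :=
    Subgroup.IsFinitelyNormallyGenerated.of_FG _
  have hker' : q.ker = normalClosure R₁ := QuotientGroup.ker_mk' _
  have hR₁le : normalClosure R₁ ≤ normalClosure (Rel a) := normalClosure_mono hR₁sub
  have hfinal := hJ.comap hqs ⟨R₁, hR₁f, hker'.symm⟩
  have hcomap : ((normalClosure (Rel a)).map q).comap q = normalClosure (Rel a) := by
    rw [Subgroup.comap_map_eq, hker']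
    exact sup_eq_left.2 hR₁le
  rw [hcomap] at hfinal
  obtain ⟨S, hSf, hS⟩ := hfinal
  refine finRel_of_finite a S hSf ?_ ?_
  · rw [← hS]; exact subset_normalClosure
  · rw [hS]; exact subset_normalClosure

end Ext

end Pool.Agent.Helper45
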