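import Mathlib
import Pool.Agent.Helper45.MalcevCore

namespace Pool.Agent.Helper45

open Subgroup

/-- Triangulation property: for every finite set `A` there is a finite set `B ⊇ A ∪ {1}` such
that every product, of at least two factors from `A`, with value in `B` can be cut into two
nonempty subproducts with values in `B`. -/
def Tri (V : Type*) [Group V] : Prop :=
  ∀ A : Set V, A.Finite → ∃ B : Set V, B.Finite ∧ A ⊆ B ∧ 1 ∈ B ∧
    ∀ l : List V, (∀ x ∈ l, x ∈ A) → 2 ≤ l.length → l.prod ∈ B →
      ∃ l₁ l₂ : List V, l₁ ≠ [] ∧ l₂ ≠ [] ∧ l = l₁ ++ l₂ ∧ l₁.prod ∈ B ∧ l₂.prod ∈ B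

section

variable {V : Type*} [Group V]

lemma prod_map_inv_reverse {A : Type*} (a : A → V) (t : List A) :
    (t.reverse.map (fun x => (a x)⁻¹)).prod = (val a t)⁻¹ := by
  induction t with
  | nil => simp
  | cons x t ih =>
    rw [List.reverse_cons, List.map_append, List.prod_append, ih]
    simp

/-- `c` closes up on the left -/
def Closable {A : Type*} (a : A → V) (c : V) : Prop :=
  ∃ p q : List A, val a p * c = val a q

open Classical in
/-- canonical fraction for `c` -/
noncomputable def gam {A : Type*} (a : A → V) (c : V) : FreeGroup A :=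
  if h : ∃ s t : List A, c = val a s * (val a t)⁻¹ then
    pos h.choose * (pos h.choose_spec.choose)⁻¹
  else 1

lemma gam_spec {A : Type*} (a : A → V) (s t : List A) :
    ∃ s' t' : List A, val a s * (val a t)⁻¹ = val a s' * (val a t')⁻¹ ∧
      gam a (val a s * (val a t)⁻¹) = pos s' * (pos t')⁻¹ := by
  have h : ∃ s' t' : List A, val a s * (val a t)⁻¹ = val a s' * (val a t')⁻¹ := ⟨s, t, rfl⟩
  refine ⟨h.choose, h.choose_spec.choose, h.choose_spec.choose_spec, ?_⟩
  unfold gam
  rw [dif_pos h]

lemma q_eq {A : Type*} (a : A → V) {s t : List A} (h : val a s = val a t) :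
    QuotientGroup.mk' (normalClosure (Rel a)) (pos s) =
      QuotientGroup.mk' (normalClosure (Rel a)) (pos t) := by
  have h2 : QuotientGroup.mk' (normalClosure (Rel a)) (pos s * (pos t)⁻¹) = 1 :=
    (QuotientGroup.eq_one_iff _).2 (mem_of_val_eq a h)
  rw [map_mul, map_inv] at h2
  exact mul_inv_eq_one.1 h2

lemma q_gam {A : Type*} (a : A → V) (s t : List A)
    (hc : Closable a (val a s * (val a t)⁻¹)) :
    QuotientGroup.mk' (normalClosure (Rel a)) (gam a (val a s * (val a t)⁻¹)) =
      QuotientGroup.mk' (normalClosure (Rel a)) (pos s * (pos t)⁻¹) := by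
  obtain ⟨s', t', h1, h2⟩ := gam_spec a s t
  obtain ⟨p, q, hpq⟩ := hc
  rw [h2]
  set Q := QuotientGroup.mk' (normalClosure (Rel a)) with hQ
  have e1 : val a (p ++ s) = val a (q ++ t) := by
    rw [val_append, val_append, ← hpq]; group
  have e2 : val a (p ++ s') = val a (q ++ t') := by
    rw [val_append, val_append, ← hpq, h1]; group
  have f1 := q_eq a e1
  have f2 := q_eq a e2
  rw [← hQ] at f1 f2
  rw [pos_append, pos_append, map_mul, map_mul] at f1 f2
  rw [map_mul, map_mul, map_inv, map_inv]
  have g1 : Q (pos s) * (Q (pos t))⁻¹ = (Q (pos p))⁻¹ * Q (pos q) := by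
    rw [mul_inv_eq_iff_eq_mul, mul_assoc, ← f1]; group
  have g2 : Q (pos s') * (Q (pos t'))⁻¹ = (Q (pos p))⁻¹ * Q (pos q) := by
    rw [mul_inv_eq_iff_eq_mul, mul_assoc, ← f2]; group
  rw [g1, g2]

theorem FR_of_Tri (h : Tri V) : FR V := by
  intro n a
  obtain ⟨B, hBf, hAB, h1B, hB⟩ := h (Set.range a ∪ Set.range (fun i => (a i)⁻¹))
    ((Set.finite_range _).union (Set.finite_range _))
  let F : Set (FreeGroup (Fin n)) :=
    ({gam a 1} ∪ Set.range (fun i => FreeGroup.of i * (gam a (a i))⁻¹)) ∪
      (Set.range (fun i => (FreeGroup.of i)⁻¹ * (gam a (a i)⁻¹)⁻¹) ∪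
        Set.image2 (fun b c => gam a b * gam a c * (gam a (b * c))⁻¹) B B)
  have hFf : F.Finite :=
    ((Set.finite_singleton _).union (Set.finite_range _)).union
      ((Set.finite_range _).union (Set.Finite.image2 _ hBf hBf))
  let E : Set (FreeGroup (Fin n)) := F ∩ normalClosure (Rel a)
  have hEf : E.Finite := hFf.subset Set.inter_subset_left
  have hEN : E ⊆ normalClosure (Rel a) := Set.inter_subset_right
  set Q := QuotientGroup.mk' (normalClosure (Rel a)) with hQ
  set Q₀ := QuotientGroup.mk' (normalClosure E) with hQ₀
  have fact : ∀ x ∈ F, Q x = 1 → Q₀ x = 1 := by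
    intro x hx h1
    have : x ∈ normalClosure (Rel a) := (QuotientGroup.eq_one_iff _).1 h1
    exact (QuotientGroup.eq_one_iff _).2 (subset_normalClosure ⟨hx, this⟩)
  have clos_pos : ∀ s : List (Fin n), Closable a (val a s * (val a ([] : List (Fin n)))⁻¹) :=
    fun s => ⟨[], s, by simp⟩
  have g1 : Q (gam a 1) = 1 := by
    have h0 := q_gam a ([] : List (Fin n)) [] (clos_pos [])
    have h1 : val a ([] : List (Fin n)) * (val a ([] : List (Fin n)))⁻¹ = 1 := by simp
    rw [h1, ← hQ] at h0
    rw [h0]
    simp only [pos_nil, inv_one, mul_one, map_one]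
  have main : ∀ k : ℕ, ∀ s t : List (Fin n), s.length + t.length = k →
      val a s * (val a t)⁻¹ ∈ B → Closable a (val a s * (val a t)⁻¹) →
      Q₀ (pos s) * (Q₀ (pos t))⁻¹ = Q₀ (gam a (val a s * (val a t)⁻¹)) := by
    intro k
    induction k using Nat.strong_induction_on with
    | _ k ih =>
    intro s t hk hc hcl
    rcases lt_or_ge k 2 with hk2 | hk2
    · interval_cases k
      · -- empty
        have hs : s = [] := List.eq_nil_of_length_eq_zero (by omega)
        have ht : t = [] := List.eq_nil_of_length_eq_zero (by omega)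
        subst hs ht
        have : Q₀ (gam a 1) = 1 := fact _ (Or.inl (Or.inl rfl)) g1
        simp [this]
      · rcases s with _ | ⟨i, s⟩
        · rcases t with _ | ⟨i, t⟩
          · simp at hk
          · have ht : t = [] := List.eq_nil_of_length_eq_zero (by
              simp only [List.length_nil, List.length_cons] at hk; omega)
            subst ht
            have hm : Q ((FreeGroup.of i)⁻¹ * (gam a (a i)⁻¹)⁻¹) = 1 := by
              have := q_gam a [] [i] hcl
              simp only [val_nil, val_cons, mul_one, one_mul, pos_nil, pos_cons] at this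
              rw [map_mul, map_inv Q (gam a (a i)⁻¹), this, mul_inv_cancel]
            have := fact _ (Or.inr (Or.inl ⟨i, rfl⟩)) hm
            rw [map_mul, map_inv, map_inv] at this
            simp only [val_nil, val_cons, mul_one, one_mul, pos_nil, pos_cons, map_one]
            exact mul_inv_eq_one.1 this
        · have hs : s = [] := List.eq_nil_of_length_eq_zero (by
            simp only [List.length_cons] at hk; omega)
          have ht : t = [] := List.eq_nil_of_length_eq_zero (by
            simp only [List.length_cons] at hk; omega)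
          subst hs ht
          have hm : Q (FreeGroup.of i * (gam a (a i))⁻¹) = 1 := by
            have := q_gam a [i] [] (clos_pos [i])
            simp only [val_nil, val_cons, mul_one, inv_one, pos_nil, pos_cons] at this
            rw [map_mul, map_inv, this, mul_inv_cancel]
          have := fact _ (Or.inl (Or.inr ⟨i, rfl⟩)) hm
          rw [map_mul, map_inv] at this
          simp only [val_nil, val_cons, mul_one, inv_one, pos_nil, pos_cons, map_one]
          exact mul_inv_eq_one.1 this
    · -- split
      have hL1 : ∀ x ∈ s.map a ++ t.reverse.map (fun x => (a x)⁻¹),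
          x ∈ Set.range a ∪ Set.range (fun i => (a i)⁻¹) := by
        intro x hx
        rw [List.mem_append, List.mem_map, List.mem_map] at hx
        rcases hx with ⟨y, -, rfl⟩ | ⟨y, -, rfl⟩
        · exact Or.inl ⟨y, rfl⟩
        · exact Or.inr ⟨y, rfl⟩
      have hL2 : (s.map a ++ t.reverse.map (fun x => (a x)⁻¹)).prod =
          val a s * (val a t)⁻¹ := by
        rw [List.prod_append, prod_map_inv_reverse]; rfl
      obtain ⟨l₁, l₂, hl₁, hl₂, hL, hb₁, hb₂⟩ := hB _ hL1 (by simpa using by omega)
        (by rw [hL2]; exact hc)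
      obtain ⟨p, q, hpq⟩ := hcl
      rcases List.append_eq_append_iff.1 hL with ⟨as, h1, h2⟩ | ⟨bs, h1, h2⟩
      · -- cut inside `t`
        obtain ⟨r₁, r₂, hr, hr1, hr2⟩ := List.map_eq_append_iff.1 h2
        have ht : t = r₂.reverse ++ r₁.reverse := by
          have := congrArg List.reverse hr
          simpa using this
        have hb₁' : val a s * (val a r₁.reverse)⁻¹ = l₁.prod := by
          rw [h1, List.prod_append, ← hr1]
          have := prod_map_inv_reverse a r₁.reverse
          rw [List.reverse_reverse] at this
          rw [this]; rfl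
        have hb₂' : val a [] * (val a r₂.reverse)⁻¹ = l₂.prod := by
          rw [← hr2]
          have := prod_map_inv_reverse a r₂.reverse
          rw [List.reverse_reverse] at this
          rw [this]; simp
        have hr₂ne : r₂ ≠ [] := by
          rintro rfl; exact hl₂ (by simpa using hr2.symm)
        have hr₂len : 0 < r₂.length := List.length_pos_iff.2 hr₂ne
        have hl₁len : 0 < l₁.length := List.length_pos_iff.2 hl₁
        have hlen1 : s.length + r₁.length = l₁.length := by
          rw [h1, ← hr1]; simp
        have htlen : t.length = r₂.length + r₁.length := by rw [ht]; simp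
        have clos1 : Closable a (val a s * (val a r₁.reverse)⁻¹) := by
          refine ⟨p, q ++ r₂.reverse, ?_⟩
          rw [val_append, ← hpq, ht, val_append]; group
        have clos2 : Closable a (val a [] * (val a r₂.reverse)⁻¹) := by
          refine ⟨q ++ r₂.reverse, q, ?_⟩
          rw [val_append]; simp
        have i1 := ih (s.length + r₁.reverse.length) (by simp; omega) s r₁.reverse rfl
          (by rw [hb₁']; exact hb₁) clos1
        have i2 := ih (([] : List (Fin n)).length + r₂.reverse.length) (by simp; omega)
          [] r₂.reverse rfl (by rw [hb₂']; exact hb₂) clos2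
        have hprod : (val a s * (val a r₁.reverse)⁻¹) * (val a [] * (val a r₂.reverse)⁻¹) =
            val a s * (val a t)⁻¹ := by
          rw [ht, val_append]; simp only [val_nil]; group
        have hfac : Q (gam a (val a s * (val a r₁.reverse)⁻¹) *
            gam a (val a [] * (val a r₂.reverse)⁻¹) *
            (gam a ((val a s * (val a r₁.reverse)⁻¹) * (val a [] * (val a r₂.reverse)⁻¹)))⁻¹)
            = 1 := by
          rw [hprod, map_mul, map_mul, map_inv, hQ, q_gam a _ _ clos1, q_gam a _ _ clos2,
            q_gam a s t ⟨p, q, hpq⟩, ← hQ]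
          rw [← map_inv, ← map_mul, ← map_mul, ht, pos_append]
          simp only [pos_nil]
          have : pos s * (pos r₁.reverse)⁻¹ * (1 * (pos r₂.reverse)⁻¹) *
            (pos s * (pos r₂.reverse * pos r₁.reverse)⁻¹)⁻¹ = (1 : FreeGroup (Fin n)) := by
            group
          rw [this, map_one]
        have hf := fact _ (Or.inr (Or.inr ⟨_, (by rw [hb₁']; exact hb₁), _,
          (by rw [hb₂']; exact hb₂), rfl⟩)) hfac
        beta_reduce at hf
        rw [hprod, map_mul, map_mul, map_inv] at hf
        rw [← mul_inv_eq_one.1 hf, ← i1, ← i2, ht, pos_append, map_mul]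
        simp only [pos_nil, map_one]
        group
      · -- cut inside `s`
        obtain ⟨s₁, s₂, hs, hs1, hs2⟩ := List.map_eq_append_iff.1 h1
        have hb₁' : val a s₁ * (val a ([] : List (Fin n)))⁻¹ = l₁.prod := by
          rw [← hs1]; simp [val]
        have hb₂' : val a s₂ * (val a t)⁻¹ = l₂.prod := by
          rw [h2, List.prod_append, ← hs2, prod_map_inv_reverse]; rfl
        have hs₁ne : s₁ ≠ [] := by
          rintro rfl; exact hl₁ (by simpa using hs1.symm)
        have hs₁len : 0 < s₁.length := List.length_pos_iff.2 hs₁ne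
        have hslen : s.length = s₁.length + s₂.length := by rw [hs]; simp
        have hl₂len : 0 < l₂.length := List.length_pos_iff.2 hl₂
        have hlen2 : s₂.length + t.length = l₂.length := by
          rw [h2, ← hs2]; simp
        have clos2 : Closable a (val a s₂ * (val a t)⁻¹) := by
          refine ⟨p ++ s₁, q, ?_⟩
          rw [val_append, ← hpq, hs, val_append]; group
        have i1 := ih (s₁.length + ([] : List (Fin n)).length) (by simp; omega) s₁ [] rfl
          (by rw [hb₁']; exact hb₁) (clos_pos s₁)
        have i2 := ih (s₂.length + t.length) (by omega) s₂ t rfl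
          (by rw [hb₂']; exact hb₂) clos2
        have hprod : (val a s₁ * (val a ([] : List (Fin n)))⁻¹) * (val a s₂ * (val a t)⁻¹) =
            val a s * (val a t)⁻¹ := by
          rw [hs, val_append]; simp only [val_nil]; group
        have hfac : Q (gam a (val a s₁ * (val a ([] : List (Fin n)))⁻¹) *
            gam a (val a s₂ * (val a t)⁻¹) *
            (gam a ((val a s₁ * (val a ([] : List (Fin n)))⁻¹) *
              (val a s₂ * (val a t)⁻¹)))⁻¹) = 1 := by
          rw [hprod, map_mul, map_mul, map_inv, hQ, q_gam a _ _ (clos_pos s₁),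
            q_gam a _ _ clos2, q_gam a s t ⟨p, q, hpq⟩, ← hQ]
          rw [← map_inv, ← map_mul, ← map_mul, hs, pos_append]
          simp only [pos_nil]
          have : pos s₁ * 1⁻¹ * (pos s₂ * (pos t)⁻¹) * (pos s₁ * pos s₂ * (pos t)⁻¹)⁻¹ =
              (1 : FreeGroup (Fin n)) := by
            group
          rw [this, map_one]
        have hf := fact _ (Or.inr (Or.inr ⟨_, (by rw [hb₁']; exact hb₁), _,
          (by rw [hb₂']; exact hb₂), rfl⟩)) hfac
        beta_reduce at hf
        rw [hprod, map_mul, map_mul, map_inv] at hf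
        rw [← mul_inv_eq_one.1 hf, ← i1, ← i2, hs, pos_append, map_mul]
        simp only [pos_nil, map_one]
        group
  refine finRel_of_finite a E hEf hEN ?_
  rintro r ⟨u, v, -, -, huv, rfl⟩
  have hone : val a u * (val a v)⁻¹ = 1 := by rw [huv, mul_inv_cancel]
  have := main _ u v rfl (by rw [hone]; exact h1B) ⟨[], [], by rw [hone]; simp⟩
  rw [hone, fact _ (Or.inl (Or.inl rfl)) g1, ← map_inv, ← map_mul] at this
  exact (QuotientGroup.eq_one_iff _).1 this

end

end Pool.Agent.Helper45
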