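import Mathlib
import Pool.Agent.Helper45.MalcevTri

namespace Pool.Agent.Helper45

open Subgroup

section Inj

variable {K V : Type*} [Group K] [Group V]

lemma Tri_of_injective (f : K →* V) (hf : Function.Injective f) (h : Tri V) : Tri K := by
  intro A hA
  obtain ⟨B, hBf, hAB, h1, hB⟩ := h (f '' A) (hA.image f)
  refine ⟨f ⁻¹' B, hBf.preimage hf.injOn, fun x hx => hAB ⟨x, hx, rfl⟩, by simpa using h1, ?_⟩
  intro l hl hlen hprod
  have hm : ∀ x ∈ l.map f, x ∈ f '' A := by
    intro x hx
    obtain ⟨y, hy, rfl⟩ := List.mem_map.1 hx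
    exact ⟨y, hl y hy, rfl⟩
  obtain ⟨l₁, l₂, h1, h2, h3, h4, h5⟩ := hB (l.map f) hm (by simpa using hlen) (by
    rw [← map_list_prod]; exact hprod)
  obtain ⟨m₁, m₂, rfl, rfl, rfl⟩ := List.map_eq_append_iff.1 h3
  refine ⟨m₁, m₂, by simpa using h1, by simpa using h2, rfl, ?_, ?_⟩
  · rw [← map_list_prod] at h4; exact h4
  · rw [← map_list_prod] at h5; exact h5

end Inj

section FinIndex

variable {V : Type*} [Group V] (K : Subgroup V)

/-- representative of the right coset `K g` -/
noncomputable def trep (g : V) : V := (Quotient.out (QuotientGroup.mk g⁻¹ : V ⧸ K))⁻¹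

lemma trep_mem (g : V) : g * (trep K g)⁻¹ ∈ K := by
  have h : (QuotientGroup.mk (Quotient.out (QuotientGroup.mk g⁻¹ : V ⧸ K)) : V ⧸ K) =
      QuotientGroup.mk g⁻¹ := Quotient.out_eq _
  rw [QuotientGroup.eq] at h
  have := K.inv_mem h
  simpa [trep] using this

lemma trep_mul (k g : V) (hk : k ∈ K) : trep K (k * g) = trep K g := by
  unfold trep
  congr 2
  rw [QuotientGroup.eq]
  simpa using hk

lemma trep_trep (g : V) : trep K (trep K g) = trep K g := by
  have h := K.inv_mem (trep_mem K g)
  have e : (g * (trep K g)⁻¹)⁻¹ * g = trep K g := by group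
  have := trep_mul K _ g h
  rwa [e] at this

lemma trep_range_finite [K.FiniteIndex] : (Set.range (trep K)).Finite := by
  have : (Set.range (fun q : V ⧸ K => (Quotient.out q)⁻¹)).Finite := Set.finite_range _
  refine this.subset ?_
  rintro _ ⟨g, rfl⟩
  exact ⟨_, rfl⟩

/-- the `K`-part -/
noncomputable def kpart (g : V) : K := ⟨g * (trep K g)⁻¹, trep_mem K g⟩

/-- increments in `K` along a path -/
noncomputable def kl : V → List V → List K
  | _, [] => []
  | g, a :: l => ((kpart K g)⁻¹ * kpart K (g * a)) :: kl (g * a) l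

lemma kl_length (g : V) (l : List V) : (kl K g l).length = l.length := by
  induction l generalizing g with
  | nil => rfl
  | cons a l ih => simp [kl, ih]

lemma kl_append (g : V) (l m : List V) :
    kl K g (l ++ m) = kl K g l ++ kl K (g * l.prod) m := by
  induction l generalizing g with
  | nil => simp [kl]
  | cons a l ih => simp [kl, ih, mul_assoc]

lemma kl_prod (g : V) (l : List V) :
    (kl K g l).prod = (kpart K g)⁻¹ * kpart K (g * l.prod) := by
  induction l generalizing g with
  | nil => simp [kl]
  | cons a l ih => simp [kl, ih, mul_assoc]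

lemma step_eq (g a : V) :
    (kpart K g)⁻¹ * kpart K (g * a) = kpart K (trep K g * a) := by
  have h1 : trep K (trep K g * a) = trep K (g * a) := by
    have := trep_mul K _ (g * a) (K.inv_mem (trep_mem K g))
    rw [← this]; congr 1; group
  apply Subtype.ext
  simp only [kpart, Subgroup.coe_mul, Subgroup.coe_inv, h1]
  group

lemma Tri_of_finiteIndex [K.FiniteIndex] (h : Tri K) : Tri V := by
  intro A hA
  have hT := trep_range_finite K
  obtain ⟨B, hBf, hAB, h1, hB⟩ := h (Set.image2 (fun s a => kpart K (s * a))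
    (Set.range (trep K)) A) (Set.Finite.image2 _ hT hA)
  let B' : Set V := Set.image2 (fun (p : V × V) (k : K) => p.1⁻¹ * (k : V) * p.2)
    (Set.range (trep K) ×ˢ Set.range (trep K)) B
  have mk : ∀ g x : V, (kpart K g)⁻¹ * kpart K (g * x) ∈ B → x ∈ B' := by
    intro g x hx
    refine ⟨(trep K g, trep K (g * x)), ⟨⟨g, rfl⟩, ⟨_, rfl⟩⟩, _, hx, ?_⟩
    simp only [kpart, Subgroup.coe_mul, Subgroup.coe_inv]
    group
  refine ⟨B', Set.Finite.image2 _ (hT.prod hT) hBf, ?_, ?_, ?_⟩
  · intro a ha
    apply mk 1
    rw [step_eq]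
    exact hAB ⟨_, ⟨1, rfl⟩, a, ha, rfl⟩
  · apply mk 1
    simpa using h1
  · rintro l hl hlen ⟨⟨s, s'⟩, ⟨⟨g, hs⟩, ⟨g', hs'⟩⟩, k, hk, hprod⟩
    simp only at hs hs' hprod
    have hks : kpart K s = 1 := by
      apply Subtype.ext
      have : trep K s = s := by rw [← hs, trep_trep]
      simp [kpart, this]
    have hend : s * l.prod = k * s' := by rw [← hprod]; group
    have hkend : kpart K (s * l.prod) = k := by
      apply Subtype.ext
      have h2 : trep K (k * s') = s' := by
        rw [trep_mul K _ _ k.2, ← hs', trep_trep]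
      simp [kpart, hend, h2]
    have hp : (kl K s l).prod ∈ B := by
      rw [kl_prod, hks, hkend]; simpa using hk
    have hmem : ∀ (g : V) (l : List V), (∀ x ∈ l, x ∈ A) → ∀ x ∈ kl K g l,
        x ∈ Set.image2 (fun s a => kpart K (s * a)) (Set.range (trep K)) A := by
      intro g l
      induction l generalizing g with
      | nil => intro _ x hx; simp [kl] at hx
      | cons a l ih =>
        intro hl x hx
        simp only [kl, List.mem_cons] at hx
        rcases hx with rfl | hx
        · rw [step_eq]
          exact ⟨_, ⟨g, rfl⟩, a, hl a (by simp), rfl⟩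
        · exact ih (g * a) (fun y hy => hl y (by simp [hy])) x hx
    obtain ⟨m₁, m₂, hm1, hm2, hm, hb1, hb2⟩ := hB (kl K s l) (hmem s l hl)
      (by rw [kl_length]; exact hlen) hp
    have hlm : l.length = m₁.length + m₂.length := by
      rw [← kl_length K s l, hm, List.length_append]
    have hsplit : l = l.take m₁.length ++ l.drop m₁.length := (List.take_append_drop _ _).symm
    have hkl : kl K s (l.take m₁.length) ++ kl K (s * (l.take m₁.length).prod)
        (l.drop m₁.length) = m₁ ++ m₂ := by
      rw [← kl_append, ← hsplit, hm]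
    have hlen1 : (kl K s (l.take m₁.length)).length = m₁.length := by
      rw [kl_length, List.length_take]; omega
    obtain ⟨e1, e2⟩ := List.append_inj hkl hlen1
    refine ⟨l.take m₁.length, l.drop m₁.length, ?_, ?_, hsplit, ?_, ?_⟩
    · intro h0
      apply hm1
      rw [← e1, h0]; rfl
    · intro h0
      apply hm2
      rw [← e2, h0]; rfl
    · apply mk s
      rw [← kl_prod, e1]; exact hb1
    · apply mk (s * (l.take m₁.length).prod)
      rw [← kl_prod, e2]; exact hb2

end FinIndex

section Free

variable {X : Type*} [DecidableEq X]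

/-- left multiplication by a short word keeps a long prefix away from the suffix `s` -/
lemma suffix_keep (g : FreeGroup X) (u s : List (X × Bool)) (hg : g.toWord = u ++ s)
    (w : List (X × Bool)) (hw : w.length ≤ u.length) :
    ∃ u' : List (X × Bool), (FreeGroup.mk w * g).toWord = u' ++ s ∧
      u.length ≤ u'.length + w.length := by
  induction w with
  | nil => exact ⟨u, by rw [← FreeGroup.one_eq_mk, one_mul]; exact hg, by simp⟩
  | cons x w ih =>
    obtain ⟨u', h1, h2⟩ := ih (by simp at hw; omega)
    have hne : u' ≠ [] := by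
      rintro rfl
      simp at hw h2; omega
    obtain ⟨y, u'', rfl⟩ := List.exists_cons_of_ne_nil hne
    have e : (FreeGroup.mk (x :: w) * g).toWord =
        FreeGroup.reduce (x :: (FreeGroup.mk w * g).toWord) := by
      have : FreeGroup.mk (x :: w) * g = FreeGroup.mk [x] * (FreeGroup.mk w * g) := by
        rw [← mul_assoc, FreeGroup.mul_mk]; rfl
      rw [this, FreeGroup.toWord_mul]
      have h3 : (FreeGroup.mk [x] : FreeGroup X).toWord = [x] := by
        rw [FreeGroup.toWord_mk]; rfl
      rw [h3]; rfl
    rw [e, FreeGroup.reduce.cons, FreeGroup.reduce_toWord, h1]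
    simp only [List.cons_append]
    split_ifs with hc
    · exact ⟨u'', rfl, by simp at h2 ⊢; omega⟩
    · exact ⟨x :: y :: u'', by simp, by simp at h2 ⊢; omega⟩

lemma crossing (r : ℕ) (l : List (FreeGroup X)) (hl : ∀ x ∈ l, x.norm ≤ r)
    (u s : List (X × Bool)) (h : l.prod.toWord = u ++ s) :
    ∃ (l₁ l₂ : List (FreeGroup X)) (t : List (X × Bool)), l = l₁ ++ l₂ ∧
      l₂.prod.toWord = t ++ s ∧ t.length ≤ r := by
  induction l generalizing u with
  | nil =>
    have : u ++ s = [] := by rw [← h]; simp
    obtain ⟨rfl, rfl⟩ := List.append_eq_nil_iff.1 this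
    exact ⟨[], [], [], rfl, by simp, Nat.zero_le _⟩
  | cons a l ih =>
    rcases le_or_gt u.length r with hur | hur
    · exact ⟨[], a :: l, u, rfl, h, hur⟩
    · have ha : a.norm ≤ r := hl a (by simp)
      have ha' : (a⁻¹).toWord.length ≤ u.length := by
        have : (a⁻¹).norm = a.norm := FreeGroup.norm_inv_eq
        unfold FreeGroup.norm at this ha
        omega
      obtain ⟨u', h1, -⟩ := suffix_keep _ u s h (a⁻¹).toWord ha'
      have e : FreeGroup.mk (a⁻¹).toWord * (a :: l).prod = l.prod := by
        rw [FreeGroup.mk_toWord, List.prod_cons]; group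
      rw [e] at h1
      obtain ⟨l₁, l₂, t, rfl, h2, h3⟩ := ih (fun x hx => hl x (by simp [hx])) u' h1
      exact ⟨a :: l₁, l₂, t, rfl, h2, h3⟩

lemma finite_words (Y : Set (X × Bool)) (hY : Y.Finite) (R : ℕ) :
    {l : List (X × Bool) | l.length ≤ R ∧ ∀ p ∈ l, p ∈ Y}.Finite := by
  have : Finite Y := hY
  have h := (List.finite_length_le Y R).image (List.map Subtype.val)
  refine h.subset ?_
  rintro l ⟨h1, h2⟩
  refine ⟨l.attach.map (fun x => ⟨x.1, h2 x.1 x.2⟩), by simpa using h1, ?_⟩
  rw [List.map_map]
  exact List.attach_map_subtype_val l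

lemma Tri_freeGroup : Tri (FreeGroup X) := by
  intro A hA
  -- a bound for the norms
  obtain ⟨r, hr⟩ : ∃ r : ℕ, ∀ x ∈ A, x.norm ≤ r := by
    obtain ⟨r, hr⟩ := (hA.image FreeGroup.norm).bddAbove
    exact ⟨r, fun x hx => hr ⟨x, hx, rfl⟩⟩
  let Y : Set (X × Bool) := ⋃ x ∈ A, {p | p ∈ FreeGroup.toWord x}
  have hY : Y.Finite := hA.biUnion (fun x _ => List.finite_toSet _)
  have hYl : ∀ l : List (FreeGroup X), (∀ x ∈ l, x ∈ A) → ∀ p ∈ l.prod.toWord, p ∈ Y := by
    intro l
    induction l with
    | nil => intro _ p hp; simp at hp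
    | cons a l ih =>
      intro hl p hp
      rw [List.prod_cons] at hp
      have := (FreeGroup.toWord_mul_sublist a l.prod).subset hp
      rcases List.mem_append.1 this with h | h
      · exact Set.mem_biUnion (hl a (by simp)) h
      · exact ih (fun x hx => hl x (by simp [hx])) p h
  let B : Set (FreeGroup X) := {g | g.norm ≤ 4 * r + 2 ∧ ∀ p ∈ g.toWord, p ∈ Y}
  have hBf : B.Finite := by
    refine Set.Finite.of_finite_image (f := FreeGroup.toWord) ?_
      (FreeGroup.toWord_injective.injOn)
    refine (finite_words Y hY (4 * r + 2)).subset ?_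
    rintro _ ⟨g, ⟨h1, h2⟩, rfl⟩
    exact ⟨h1, h2⟩
  refine ⟨B, hBf, ?_, ⟨by simp, by simp⟩, ?_⟩
  · intro x hx
    exact ⟨(hr x hx).trans (by omega), fun p hp => Set.mem_biUnion hx hp⟩
  · intro l hl hlen hprod
    have hln : ∀ x ∈ l, x.norm ≤ r := fun x hx => hr x (hl x hx)
    -- cutting off the first letter
    have cut1 : l.prod.norm ≤ 3 * r + 2 → ∃ l₁ l₂ : List (FreeGroup X), l₁ ≠ [] ∧ l₂ ≠ [] ∧
        l = l₁ ++ l₂ ∧ l₁.prod ∈ B ∧ l₂.prod ∈ B := by
      intro hN
      rcases l with _ | ⟨a, l⟩
      · simp at hlen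
      · have hlne : l ≠ [] := by rintro rfl; simp at hlen
        refine ⟨[a], l, by simp, hlne, rfl, ⟨?_, ?_⟩, ⟨?_, ?_⟩⟩
        · simpa using (hln a (by simp)).trans (by omega)
        · exact hYl [a] (by intro x hx; exact hl x (by simp at hx; simp [hx]))
        · have e : l.prod = a⁻¹ * (a :: l).prod := by rw [List.prod_cons]; group
          rw [e]
          have h1 := FreeGroup.norm_mul_le a⁻¹ (a :: l).prod
          rw [FreeGroup.norm_inv_eq] at h1
          have h2 := hln a (by simp)
          omega
        · exact hYl l (fun x hx => hl x (by simp [hx]))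
    rcases le_or_gt l.prod.norm (3 * r + 2) with hN | hN
    · exact cut1 hN
    · set W := l.prod.toWord with hW
      have hWlen : W.length = l.prod.norm := rfl
      set u := W.take (W.length - W.length / 2) with hu
      set s := W.drop (W.length - W.length / 2) with hs
      have hus : W = u ++ s := (List.take_append_drop _ _).symm
      have hulen : u.length = W.length - W.length / 2 := by
        rw [hu, List.length_take]; omega
      have hslen : s.length = W.length / 2 := by
        rw [hs, List.length_drop]; omega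
      obtain ⟨l₁, l₂, t, hl12, h2, h3⟩ := crossing r l hln u s hus
      have hR : l.prod.norm ≤ 4 * r + 2 := hprod.1
      have hn2 : l₂.prod.norm = t.length + s.length := by
        unfold FreeGroup.norm; rw [h2, List.length_append]
      have hl2ne : l₂ ≠ [] := by
        rintro rfl
        have : t ++ s = [] := by rw [← h2]; simp
        have hs0 : s = [] := (List.append_eq_nil_iff.1 this).2
        have : s.length = 0 := by rw [hs0]; rfl
        omega
      have hl1ne : l₁ ≠ [] := by
        rintro rfl
        rw [List.nil_append] at hl12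
        subst hl12
        omega
      refine ⟨l₁, l₂, hl1ne, hl2ne, hl12, ⟨?_, ?_⟩, ⟨?_, ?_⟩⟩
      · have e : l₁.prod = FreeGroup.mk u * (FreeGroup.mk t)⁻¹ := by
          have e1 : l.prod = FreeGroup.mk u * FreeGroup.mk s := by
            rw [FreeGroup.mul_mk, ← hus, hW, FreeGroup.mk_toWord]
          have e2 : l₂.prod = FreeGroup.mk t * FreeGroup.mk s := by
            rw [FreeGroup.mul_mk, ← h2, FreeGroup.mk_toWord]
          have e3 : l.prod = l₁.prod * l₂.prod := by rw [hl12, List.prod_append]
          have : l₁.prod = l.prod * (l₂.prod)⁻¹ := by rw [e3]; group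
          rw [this, e1, e2]; group
        rw [e]
        have h4 := FreeGroup.norm_mul_le (FreeGroup.mk u) (FreeGroup.mk t)⁻¹
        rw [FreeGroup.norm_inv_eq] at h4
        have h5 : (FreeGroup.mk u).norm ≤ u.length := FreeGroup.norm_mk_le
        have h6 : (FreeGroup.mk t).norm ≤ t.length := FreeGroup.norm_mk_le
        omega
      · exact hYl l₁ (fun x hx => hl x (by rw [hl12]; simp [hx]))
      · omega
      · exact hYl l₂ (fun x hx => hl x (by rw [hl12]; simp [hx]))

end Free

/-- Groups that have a free subgroup of finite index have the triangulation property. -/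
theorem Tri_of_virtuallyFree {V : Type*} [Group V] (K : Subgroup V) [K.FiniteIndex]
    (hK : IsFreeGroup K) : Tri V := by
  classical
  refine Tri_of_finiteIndex K ?_
  exact Tri_of_injective (IsFreeGroup.toFreeGroup K).toMonoidHom
    (IsFreeGroup.toFreeGroup K).injective Tri_freeGroup

end Pool.Agent.Helper45
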