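import Mathlib
import Pool.Agent.Helper45.MalcevExt
import Pool.Agent.Helper45.MalcevFree

set_option linter.style.haveILetI false

namespace Pool.Agent.Helper45

open Subgroup

universe u v

/-- direct product with a finite group -/
lemma FR_prod_finite (F : Type u) (H : Type v) [Group F] [Group H] [Finite H] (hF : Tri F) :
    FR (F × H) := by
  apply FR_of_Tri
  let K : Subgroup (F × H) := (⊤ : Subgroup F).prod (⊥ : Subgroup H)
  haveI : K.FiniteIndex := by
    constructor
    rw [Subgroup.index_prod]
    exact mul_ne_zero Subgroup.FiniteIndex.index_ne_zero Subgroup.FiniteIndex.index_ne_zero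
  refine Tri_of_finiteIndex K ?_
  refine Tri_of_injective ((MonoidHom.fst F H).comp K.subtype) ?_ hF
  rintro ⟨⟨x1, x2⟩, hx⟩ ⟨⟨y1, y2⟩, hy⟩ hxy
  have hx2 : x2 = 1 := by simpa using (Subgroup.mem_prod.1 hx).2
  have hy2 : y2 = 1 := by simpa using (Subgroup.mem_prod.1 hy).2
  have h1 : x1 = y1 := hxy
  subst h1 hx2 hy2
  rfl

lemma FR_prod_nilpotent (F : Type u) [Group F] (hF : Tri F) (c : ℕ) :
    ∀ (H : Type v) [Group H] (K : Subgroup H) [K.Normal] [K.FiniteIndex]
      [Group.IsNilpotent K], Group.nilpotencyClass K ≤ c → FR (F × H) := by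
  induction c with
  | zero =>
    intro H _ K _ _ _ hc
    have hs : Subsingleton K :=
      Group.nilpotencyClass_zero_iff_subsingleton.1 (Nat.le_zero.1 hc)
    haveI : Finite H := (Subgroup.finite_iff_finite_and_finiteIndex (H := K)).2
      ⟨inferInstance, inferInstance⟩
    exact FR_prod_finite F H hF
  | succ c ih =>
    intro H _ K _ _ _ hc
    let Z : Subgroup H := (Subgroup.center K).map K.subtype
    haveI hZn : Z.Normal := inferInstance
    have hZK : Z ≤ K := by
      rintro _ ⟨x, -, rfl⟩; exact x.2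
    let m : H →* H ⧸ Z := QuotientGroup.mk' Z
    have hms : Function.Surjective m := QuotientGroup.mk'_surjective Z
    let K' : Subgroup (H ⧸ Z) := K.map m
    haveI : K'.Normal := Subgroup.Normal.map inferInstance m hms
    haveI : K'.FiniteIndex := by
      constructor
      rw [Subgroup.index_map_eq K hms (by rw [QuotientGroup.ker_mk']; exact hZK)]
      exact Subgroup.FiniteIndex.index_ne_zero
    -- `K'` is a quotient of `K / center K`
    let f : K →* K' := (m.comp K.subtype).codRestrict K' (fun x => ⟨x.1, x.2, rfl⟩)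
    have hfs : Function.Surjective f := by
      rintro ⟨_, ⟨x, hx, rfl⟩⟩
      exact ⟨⟨x, hx⟩, rfl⟩
    have hfk : Subgroup.center K ≤ f.ker := by
      intro z hz
      rw [MonoidHom.mem_ker]
      apply Subtype.ext
      show m z.1 = 1
      exact (QuotientGroup.eq_one_iff _).2 ⟨z, hz, rfl⟩
    let f' : K ⧸ Subgroup.center K →* K' := QuotientGroup.lift _ f hfk
    have hfs' : Function.Surjective f' := by
      intro y
      obtain ⟨x, rfl⟩ := hfs y
      exact ⟨QuotientGroup.mk x, rfl⟩
    haveI : Group.IsNilpotent K' := Group.nilpotent_of_surjective f' hfs'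
    have hc' : Group.nilpotencyClass K' ≤ c := by
      have h1 := Group.nilpotencyClass_le_of_surjective f' hfs'
      have h2 := Group.nilpotencyClass_quotient_center (G := K)
      omega
    have hFR : FR (F × (H ⧸ Z)) := ih (H ⧸ Z) K' hc'
    let π : F × H →* F × (H ⧸ Z) := (MonoidHom.id F).prodMap m
    let C : Subgroup (F × H) := (⊤ : Subgroup F).prod K
    haveI : C.Normal := inferInstance
    haveI : C.FiniteIndex := by
      constructor
      rw [Subgroup.index_prod]
      exact mul_ne_zero Subgroup.FiniteIndex.index_ne_zero Subgroup.FiniteIndex.index_ne_zero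
    have hker : ∀ x ∈ π.ker, x.1 = 1 ∧ x.2 ∈ Z := by
      rintro ⟨x1, x2⟩ hx
      rw [MonoidHom.mem_ker] at hx
      have h1 : x1 = 1 := congrArg Prod.fst hx
      have h2 : m x2 = 1 := congrArg Prod.snd hx
      exact ⟨h1, (QuotientGroup.eq_one_iff _).1 h2⟩
    refine FR_of_hom π C ?_ ?_ hFR
    · intro x hx
      exact Subgroup.mem_prod.2 ⟨trivial, hZK (hker x hx).2⟩
    · rintro ⟨x1, x2⟩ hx ⟨c1, c2⟩ hc
      obtain ⟨h1, h2⟩ := hker _ hx
      simp only at h1 h2
      subst h1
      obtain ⟨z, hz, rfl⟩ := h2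
      have hcK : c2 ∈ K := (Subgroup.mem_prod.1 hc).2
      have := (Subgroup.mem_center_iff.1 hz) ⟨c2, hcK⟩
      have h3 : c2 * (z : H) = z * c2 := congrArg Subtype.val this
      refine Prod.ext (by simp) ?_
      exact h3.symm

theorem FR_prod (F : Type u) (H : Type v) [Group F] [Group H]
    (hF : ∃ K : Subgroup F, K.FiniteIndex ∧ IsFreeGroup K)
    (hH : ∃ K : Subgroup H, K.FiniteIndex ∧ Group.IsNilpotent K) : FR (F × H) := by
  obtain ⟨KF, hKF, hfree⟩ := hF
  obtain ⟨K, hK, hnil⟩ := hH
  have hTri : Tri F := Tri_of_virtuallyFree KF hfree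
  haveI : K.normalCore.FiniteIndex := inferInstance
  haveI : Group.IsNilpotent (K.normalCore.subgroupOf K) := inferInstance
  haveI : Group.IsNilpotent K.normalCore :=
    Group.nilpotent_of_mulEquiv (Subgroup.subgroupOfEquivOfLe K.normalCore_le)
  exact FR_prod_nilpotent F hTri _ H K.normalCore le_rfl


section Conv

variable {A : Type*}

lemma posWord_eq (w : FreeSemigroup A) : posWord w = pos (w.head :: w.tail) := by
  induction w using FreeSemigroup.recOnMul with
  | ih1 x => simp [posWord]
  | ih2 x y _ hy =>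
    rw [map_mul, hy]
    simp [posWord]

lemma lift_eq_val {G : Type*} [Group G] (a : A → G) (w : FreeSemigroup A) :
    FreeSemigroup.lift a w = val a (w.head :: w.tail) := by
  induction w using FreeSemigroup.recOnMul with
  | ih1 x => simp
  | ih2 x y _ hy =>
    rw [map_mul, hy]
    simp

lemma exists_word (l : List A) (hl : l ≠ []) :
    ∃ w : FreeSemigroup A, w.head :: w.tail = l := by
  obtain ⟨x, l, rfl⟩ := List.exists_cons_of_ne_nil hl
  exact ⟨⟨x, l⟩, rfl⟩

end Conv

theorem malcevCoherent_of_FR {G : Type*} [Group G] (h : FR G) : MalcevCoherent G := by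
  classical
  rintro S ⟨T, hT, rfl⟩
  haveI : Finite T := hT
  obtain ⟨n, ⟨e⟩⟩ := Finite.exists_equiv_fin T
  let a : Fin n → G := fun i => (e.symm i : T)
  have ha : Set.range a = T := by
    ext x
    constructor
    · rintro ⟨i, rfl⟩; exact (e.symm i).2
    · intro hx; exact ⟨e ⟨x, hx⟩, by simp [a]⟩
  let ι : Fin n → Subsemigroup.closure T := fun i =>
    ⟨a i, Subsemigroup.subset_closure (e.symm i).2⟩
  have hι : ∀ w : FreeSemigroup (Fin n),
      ((FreeSemigroup.lift ι w : Subsemigroup.closure T) : G) = FreeSemigroup.lift a w := by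
    intro w
    induction w using FreeSemigroup.recOnMul with
    | ih1 x => rfl
    | ih2 x y hx hy => rw [map_mul, map_mul, MulMemClass.coe_mul, hx, hy]
  obtain ⟨E, hEf, hE1, hE2⟩ := h n a
  have hchoice : ∀ r : E, ∃ p : FreeSemigroup (Fin n) × FreeSemigroup (Fin n),
      FreeSemigroup.lift a p.1 = FreeSemigroup.lift a p.2 ∧
        (r : FreeGroup (Fin n)) = posWord p.1 * (posWord p.2)⁻¹ := by
    rintro ⟨r, hr⟩
    obtain ⟨u, v, hu, hv, huv, hr'⟩ := hE1 hr
    obtain ⟨x, rfl⟩ := exists_word u hu
    obtain ⟨y, rfl⟩ := exists_word v hv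
    exact ⟨(x, y), by rw [lift_eq_val, lift_eq_val]; exact huv,
      by rw [posWord_eq, posWord_eq]; exact hr'⟩
  choose p hp1 hp2 using hchoice
  haveI : Finite E := hEf
  have hEρ : E ⊆ relators (Set.range p) := fun r hr => ⟨p ⟨r, hr⟩, ⟨_, rfl⟩, hp2 ⟨r, hr⟩⟩
  refine ⟨n, ι, Set.range p, Set.finite_range p, ?_, ?_⟩
  · have : Set.range ι = ((↑) : Subsemigroup.closure T → G) ⁻¹' T := by
      ext x
      constructor
      · rintro ⟨i, rfl⟩; exact (e.symm i).2
      · intro hx
        exact ⟨e ⟨x, hx⟩, Subtype.ext (by simp [ι, a])⟩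
    rw [this]
    exact Subsemigroup.closure_closure_coe_preimage
  · intro x y
    constructor
    · intro hxy
      have h1 : FreeSemigroup.lift a x = FreeSemigroup.lift a y := by
        rw [← hι, ← hι, hxy]
      have h2 : posWord x * (posWord y)⁻¹ ∈ normalClosure (relators (Set.range p)) := by
        refine (normalClosure_mono hEρ) (hE2 ⟨x.head :: x.tail, y.head :: y.tail,
          by simp, by simp, ?_, ?_⟩)
        · rw [← lift_eq_val, ← lift_eq_val, h1]
        · rw [posWord_eq, posWord_eq]
      have h3 : PresentedGroup.mk (relators (Set.range p)) (posWord x * (posWord y)⁻¹) = 1 :=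
        (QuotientGroup.eq_one_iff _).2 h2
      rw [map_mul, map_inv] at h3
      exact mul_inv_eq_one.1 h3
    · intro hxy
      have h3 : PresentedGroup.mk (relators (Set.range p)) (posWord x * (posWord y)⁻¹) = 1 := by
        rw [map_mul, map_inv]
        exact mul_inv_eq_one.2 hxy
      have h2 : posWord x * (posWord y)⁻¹ ∈ normalClosure (relators (Set.range p)) :=
        (QuotientGroup.eq_one_iff _).1 h3
      have h4 : normalClosure (relators (Set.range p)) ≤ (FreeGroup.lift a).ker := by
        apply normalClosure_le_normal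
        rintro r ⟨_, ⟨r', rfl⟩, rfl⟩
        have := hp1 r'
        rw [lift_eq_val, lift_eq_val] at this
        show FreeGroup.lift a (posWord (p r').1 * (posWord (p r').2)⁻¹) = 1
        rw [posWord_eq, posWord_eq]
        simp only [map_mul, map_inv, lift_pos]
        rw [this, mul_inv_cancel]
      have h5 : FreeGroup.lift a (posWord x * (posWord y)⁻¹) = 1 := h4 h2
      rw [posWord_eq, posWord_eq] at h5
      simp only [map_mul, map_inv, lift_pos] at h5
      apply Subtype.ext
      rw [hι, hι, lift_eq_val, lift_eq_val]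
      exact mul_inv_eq_one.1 h5

/-- Direct products of a virtually free group and a virtually nilpotent group are Malcev
coherent. -/
theorem malcevCoherent_prod (F : Type u) (H : Type v) [Group F] [Group H]
    (hF : ∃ K : Subgroup F, K.FiniteIndex ∧ IsFreeGroup K)
    (hH : ∃ K : Subgroup H, K.FiniteIndex ∧ Group.IsNilpotent K) : MalcevCoherent (F × H) :=
  malcevCoherent_of_FR (FR_prod F H hF hH)

end Pool.Agent.Helper45
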