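import Mathlib
import Pool.Agent.Helper45.MalcevMain

namespace Pool.Agent.Helper45

open Subgroup

/-! ### A criterion for the absence of finite Malcev presentations -/

section Criterion

variable {S : Type*} [Semigroup S] {A : Type*}

lemma exists_lift_eq (τ : A → S) (hτ : Subsemigroup.closure (Set.range τ) = ⊤) (s : S) :
    ∃ w : FreeSemigroup A, FreeSemigroup.lift τ w = s := by
  have hs : s ∈ Subsemigroup.closure (Set.range τ) := by rw [hτ]; trivial
  induction hs using Subsemigroup.closure_induction with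
  | mem x hx => obtain ⟨a, rfl⟩ := hx; exact ⟨FreeSemigroup.of a, by simp⟩
  | mul x y _ _ hx hy =>
    obtain ⟨u, rfl⟩ := hx
    obtain ⟨v, rfl⟩ := hy
    exact ⟨u * v, by simp⟩

lemma lift_lift {B : Type*} {T : Type*} [Semigroup T] (θ : A → FreeSemigroup B) (f : B → T)
    (w : FreeSemigroup A) :
    FreeSemigroup.lift f (FreeSemigroup.lift θ w) =
      FreeSemigroup.lift (fun a => FreeSemigroup.lift f (θ a)) w := by
  induction w using FreeSemigroup.recOnMul with
  | ih1 x => simp
  | ih2 x y hx hy => simp [map_mul, hy]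

lemma lift_eq_of_gpValue_eq {Γ : Type*} [Group Γ] (ψ : A → Γ)
    (ρ : Set (FreeSemigroup A × FreeSemigroup A))
    (hρ : ∀ p ∈ ρ, FreeSemigroup.lift ψ p.1 = FreeSemigroup.lift ψ p.2)
    {x y : FreeSemigroup A} (h : gpValue ρ x = gpValue ρ y) :
    FreeSemigroup.lift ψ x = FreeSemigroup.lift ψ y := by
  have h3 : PresentedGroup.mk (relators ρ) (posWord x * (posWord y)⁻¹) = 1 := by
    rw [map_mul, map_inv]
    exact mul_inv_eq_one.2 h
  have h2 : posWord x * (posWord y)⁻¹ ∈ normalClosure (relators ρ) :=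
    (QuotientGroup.eq_one_iff _).1 h3
  have h4 : normalClosure (relators ρ) ≤ (FreeGroup.lift ψ).ker := by
    apply normalClosure_le_normal
    rintro r ⟨p, hp, rfl⟩
    have := hρ p hp
    rw [lift_eq_val, lift_eq_val] at this
    show FreeGroup.lift ψ (posWord p.1 * (posWord p.2)⁻¹) = 1
    rw [posWord_eq, posWord_eq]
    simp only [map_mul, map_inv, lift_pos]
    rw [this, mul_inv_cancel]
  have h5 : FreeGroup.lift ψ (posWord x * (posWord y)⁻¹) = 1 := h4 h2
  rw [posWord_eq, posWord_eq] at h5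
  simp only [map_mul, map_inv, lift_pos] at h5
  rw [lift_eq_val, lift_eq_val]
  exact mul_inv_eq_one.1 h5

lemma gpValue_eq_of_mem {ρ : Set (FreeSemigroup A × FreeSemigroup A)}
    {p : FreeSemigroup A × FreeSemigroup A} (hp : p ∈ ρ) : gpValue ρ p.1 = gpValue ρ p.2 := by
  have h2 : posWord p.1 * (posWord p.2)⁻¹ ∈ normalClosure (relators ρ) :=
    subset_normalClosure ⟨p, hp, rfl⟩
  have h3 : PresentedGroup.mk (relators ρ) (posWord p.1 * (posWord p.2)⁻¹) = 1 :=
    (QuotientGroup.eq_one_iff _).2 h2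
  rw [map_mul, map_inv] at h3
  exact mul_inv_eq_one.1 h3

/-- If for every `N` some assignment of group elements to the generators satisfies all relations
of `S` between words of length at most `N`, but not all relations of `S`, then `S` has no finite
Malcev presentation. -/
theorem not_hasFiniteMalcevPresentation [Finite A] (τ : A → S)
    (hτ : Subsemigroup.closure (Set.range τ) = ⊤)
    (H : ∀ N : ℕ, ∃ (Γ : Type) (_ : Group Γ) (φ : A → Γ),
      (∀ u v : FreeSemigroup A, u.length ≤ N → v.length ≤ N →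
        FreeSemigroup.lift τ u = FreeSemigroup.lift τ v →
        FreeSemigroup.lift φ u = FreeSemigroup.lift φ v) ∧
      ∃ u v : FreeSemigroup A, FreeSemigroup.lift τ u = FreeSemigroup.lift τ v ∧
        FreeSemigroup.lift φ u ≠ FreeSemigroup.lift φ v) :
    ¬ HasFiniteMalcevPresentation S := by
  rintro ⟨n, ι, ρ, hρ, hgen, hiff⟩
  choose θ hθ using fun i : Fin n => exists_lift_eq τ hτ (ι i)
  choose θ' hθ' using fun j : A => exists_lift_eq ι hgen (τ j)
  -- the finite set of transferred relations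
  let R : Set (FreeSemigroup A × FreeSemigroup A) :=
    ((fun p : FreeSemigroup (Fin n) × FreeSemigroup (Fin n) =>
      (FreeSemigroup.lift θ p.1, FreeSemigroup.lift θ p.2)) '' ρ) ∪
    Set.range (fun j : A => (FreeSemigroup.of j, FreeSemigroup.lift θ (θ' j)))
  have hR : R.Finite := (hρ.image _).union (Set.finite_range _)
  obtain ⟨N, hN⟩ : ∃ N : ℕ, ∀ p ∈ R, p.1.length ≤ N ∧ p.2.length ≤ N := by
    obtain ⟨N, hN⟩ := (hR.image (fun p => p.1.length + p.2.length)).bddAbove
    refine ⟨N, fun p hp => ?_⟩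
    have := hN ⟨p, hp, rfl⟩
    simp only at this
    omega
  have hτθ : ∀ w : FreeSemigroup (Fin n), FreeSemigroup.lift τ (FreeSemigroup.lift θ w) =
      FreeSemigroup.lift ι w := by
    intro w
    rw [lift_lift]
    congr 2
    funext i
    exact hθ i
  have hιθ : ∀ w : FreeSemigroup A, FreeSemigroup.lift ι (FreeSemigroup.lift θ' w) =
      FreeSemigroup.lift τ w := by
    intro w
    rw [lift_lift]
    congr 2
    funext i
    exact hθ' i
  have hvalid : ∀ p ∈ R, FreeSemigroup.lift τ p.1 = FreeSemigroup.lift τ p.2 := by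
    rintro _ (⟨p, hp, rfl⟩ | ⟨j, rfl⟩)
    · simp only [hτθ]
      exact (hiff p.1 p.2).2 (gpValue_eq_of_mem hp)
    · simp only [hτθ, hθ', FreeSemigroup.lift_of]
  obtain ⟨Γ, _, φ, h1, u, v, h2, h3⟩ := H N
  have hφR : ∀ p ∈ R, FreeSemigroup.lift φ p.1 = FreeSemigroup.lift φ p.2 := fun p hp =>
    h1 _ _ (hN p hp).1 (hN p hp).2 (hvalid p hp)
  let ψ : Fin n → Γ := fun i => FreeSemigroup.lift φ (θ i)
  have hψρ : ∀ p ∈ ρ, FreeSemigroup.lift ψ p.1 = FreeSemigroup.lift ψ p.2 := by
    intro p hp
    have := hφR _ (Or.inl ⟨p, hp, rfl⟩)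
    simp only [lift_lift] at this
    exact this
  have hback : ∀ w : FreeSemigroup A, FreeSemigroup.lift ψ (FreeSemigroup.lift θ' w) =
      FreeSemigroup.lift φ w := by
    intro w
    rw [lift_lift]
    congr 2
    funext j
    have := hφR _ (Or.inr ⟨j, rfl⟩)
    simp only [lift_lift, FreeSemigroup.lift_of] at this
    exact this.symm
  apply h3
  rw [← hback u, ← hback v]
  apply lift_eq_of_gpValue_eq ψ ρ hψρ
  apply (hiff _ _).1
  rw [hιθ, hιθ, h2]

end Criterion

end Pool.Agent.Helper45
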