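import Mathlib

namespace Pool.Agent.Helper45

open Monoid

section FreeProd

variable (M : Type*) [Group M]

/-- multiply the head of a list on the left -/
def headMul : M →* Function.End (List M) where
  toFun m l := match l with
    | [] => []
    | h :: t => (m * h) :: t
  map_one' := by
    funext l
    cases l with
    | nil => rfl
    | cons h t => show (1 * h) :: t = h :: t; rw [one_mul]
  map_mul' m m' := by
    funext l
    cases l with
    | nil => rfl
    | cons h t => show (m * m' * h) :: t = (m * (m' * h)) :: t; rw [mul_assoc]

/-- push `1` on a list -/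
def pushOne : Function.End (List M) := fun l => 1 :: l

/-- the action of the free product on lists -/
def evL : Coprod (FreeMonoid Unit) M →* Function.End (List M) :=
  Coprod.lift (FreeMonoid.lift (fun _ => pushOne M)) (headMul M)

variable {M}

@[simp] lemma evL_inl_of (l : List M) :
    evL M (Coprod.inl (FreeMonoid.of ())) l = 1 :: l := by
  simp only [evL, Coprod.lift_apply_inl, FreeMonoid.lift_eval_of]
  rfl

@[simp] lemma evL_inr (m h : M) (t : List M) :
    evL M (Coprod.inr m) (h :: t) = (m * h) :: t := by
  simp only [evL, Coprod.lift_apply_inr]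
  rfl

lemma evL_mul (p q : Coprod (FreeMonoid Unit) M) (l : List M) :
    evL M (p * q) l = evL M p (evL M q l) := by
  rw [map_mul]; rfl

lemma evL_one (l : List M) : evL M 1 l = l := by
  rw [map_one]; rfl

/-- rebuild an element of the free product from a list -/
def back : List M → Coprod (FreeMonoid Unit) M
  | [] => 1
  | [m] => Coprod.inr m
  | m :: m' :: l => Coprod.inr m * Coprod.inl (FreeMonoid.of ()) * back (m' :: l)

lemma coprod_ind {motive : Coprod (FreeMonoid Unit) M → Prop} (h1 : motive 1)
    (hx : ∀ q, motive q → motive (Coprod.inl (FreeMonoid.of ()) * q))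
    (hm : ∀ (m : M) q, motive q → motive (Coprod.inr m * q)) : ∀ p, motive p := by
  intro p
  induction p using Coprod.induction_on' with
  | one => exact h1
  | inl_mul w q hq =>
    induction w using FreeMonoid.recOn with
    | one => simpa using hq
    | of_mul x w ih =>
      rw [map_mul, mul_assoc]
      exact hx _ ih
  | inr_mul m q hq => exact hm m q hq

lemma evL_ne_nil (p : Coprod (FreeMonoid Unit) M) : ∀ l : List M, l ≠ [] → evL M p l ≠ [] := by
  induction p using coprod_ind with
  | h1 => intro l hl; rwa [evL_one]
  | hx q ih => intro l hl; rw [evL_mul]; simp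
  | hm m q ih =>
    intro l hl
    rw [evL_mul]
    obtain ⟨h, t, ht⟩ := List.exists_cons_of_ne_nil (ih l hl)
    rw [ht]; simp

lemma back_evL (p : Coprod (FreeMonoid Unit) M) :
    ∀ l : List M, l ≠ [] → back (evL M p l) = p * back l := by
  induction p using coprod_ind with
  | h1 => intro l hl; rw [evL_one, one_mul]
  | hx q ih =>
    intro l hl
    rw [evL_mul, evL_inl_of]
    obtain ⟨h, t, ht⟩ := List.exists_cons_of_ne_nil (evL_ne_nil q l hl)
    rw [ht, mul_assoc, ← ih l hl, ht]
    simp [back]
  | hm m q ih =>
    intro l hl
    rw [evL_mul]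
    obtain ⟨h, t, ht⟩ := List.exists_cons_of_ne_nil (evL_ne_nil q l hl)
    rw [ht, evL_inr, mul_assoc, ← ih l hl, ht]
    cases t with
    | nil => simp [back]
    | cons h' t => simp [back, mul_assoc]

lemma evL_injective {p q : Coprod (FreeMonoid Unit) M}
    (h : evL M p [1] = evL M q [1]) : p = q := by
  have h1 := back_evL p [1] (by simp)
  have h2 := back_evL q [1] (by simp)
  rw [h] at h1
  have : p * back [1] = q * back [1] := h1.symm.trans h2
  simpa [back] using this

/-! the wreath product embedding -/

/-- act at position `0` -/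
def actZero : M →* Equiv.Perm (ℤ → M) where
  toFun m :=
    { toFun := fun f i => if i = 0 then m * f i else f i
      invFun := fun f i => if i = 0 then m⁻¹ * f i else f i
      left_inv := by intro f; funext i; by_cases h : i = 0 <;> simp [h]
      right_inv := by intro f; funext i; by_cases h : i = 0 <;> simp [h] }
  map_one' := by ext f i; simp
  map_mul' m m' := by ext f i; by_cases h : i = 0 <;> simp [h, mul_assoc]

variable (M) in
/-- shift of sequences -/
def shiftPerm : Equiv.Perm (ℤ → M) where
  toFun f i := f (i - 1)
  invFun f i := f (i + 1)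
  left_inv f := by funext i; simp
  right_inv f := by funext i; simp

variable (M) in
/-- the embedding of the free product into a group -/
def embG : Coprod (FreeMonoid Unit) M →* Equiv.Perm (ℤ → M) × Multiplicative ℤ :=
  Coprod.lift (FreeMonoid.lift (fun _ => (shiftPerm M, Multiplicative.ofAdd 1)))
    ((MonoidHom.inl _ _).comp actZero)

/-- a list as a sequence -/
def seqOf (l : List M) : ℤ → M := fun i => if 0 ≤ i then l.getD i.toNat 1 else 1

lemma embG_spec (p : Coprod (FreeMonoid Unit) M) : ∀ l : List M, l ≠ [] →
    (embG M p).1 (seqOf l) = seqOf (evL M p l) ∧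
      ((evL M p l).length : ℤ) = l.length + Multiplicative.toAdd (embG M p).2 := by
  induction p using coprod_ind with
  | h1 => intro l hl; simp [evL_one]
  | hx q ih =>
    intro l hl
    obtain ⟨ih1, ih2⟩ := ih l hl
    rw [map_mul, evL_mul, evL_inl_of, Prod.fst_mul, Prod.snd_mul, Equiv.Perm.mul_apply, ih1]
    constructor
    · funext i
      simp only [embG, Coprod.lift_apply_inl, FreeMonoid.lift_eval_of]
      show seqOf (evL M q l) (i - 1) = _
      unfold seqOf
      by_cases h0 : 1 ≤ i
      · have h1 : 0 ≤ i - 1 := by omega
        have h2 : 0 ≤ i := by omega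
        have h3 : i.toNat = (i - 1).toNat + 1 := by omega
        rw [if_pos h1, if_pos h2, h3, List.getD_cons_succ]
      · have h1 : ¬ 0 ≤ i - 1 := by omega
        rw [if_neg h1]
        by_cases h2 : 0 ≤ i
        · have h3 : i.toNat = 0 := by omega
          rw [if_pos h2, h3, List.getD_cons_zero]
        · rw [if_neg h2]
    · simp only [embG, Coprod.lift_apply_inl, FreeMonoid.lift_eval_of, List.length_cons,
        toAdd_mul, toAdd_ofAdd] at ih2 ⊢
      push_cast
      rw [ih2]; ring
  | hm m q ih =>
    intro l hl
    obtain ⟨ih1, ih2⟩ := ih l hl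
    obtain ⟨h, t, ht⟩ := List.exists_cons_of_ne_nil (evL_ne_nil q l hl)
    rw [map_mul, evL_mul, Prod.fst_mul, Prod.snd_mul, Equiv.Perm.mul_apply, ih1]
    rw [ht] at ih2 ⊢
    rw [evL_inr]
    constructor
    · funext i
      simp only [embG, Coprod.lift_apply_inr]
      show (if i = 0 then m * seqOf (h :: t) i else seqOf (h :: t) i) = _
      unfold seqOf
      by_cases h0 : i = 0
      · subst h0; simp
      · rw [if_neg h0]
        by_cases h2 : 0 ≤ i
        · have h3 : i.toNat = (i.toNat - 1) + 1 := by omega
          rw [if_pos h2, if_pos h2, h3, List.getD_cons_succ, List.getD_cons_succ]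
        · rw [if_neg h2, if_neg h2]
    · simp only [List.length_cons] at ih2 ⊢
      rw [ih2]
      simp [embG]

lemma seqOf_inj {l l' : List M} (hlen : l.length = l'.length) (h : seqOf l = seqOf l') :
    l = l' := by
  apply List.ext_getElem hlen
  intro i h1 h2
  have := congrFun h (i : ℤ)
  simp only [seqOf, Nat.cast_nonneg, if_true, Int.toNat_natCast] at this
  rwa [List.getD_eq_getElem _ _ h1, List.getD_eq_getElem _ _ h2] at this

theorem embG_injective : Function.Injective (embG M) := by
  intro p q hpq
  obtain ⟨p1, p2⟩ := embG_spec p [1] (by simp)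
  obtain ⟨q1, q2⟩ := embG_spec q [1] (by simp)
  apply evL_injective
  apply seqOf_inj
  · rw [hpq] at p2
    have := p2.trans q2.symm
    exact_mod_cast this
  · rw [← p1, ← q1, hpq]

end FreeProd

end Pool.Agent.Helper45
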