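import Mathlib
import Pool.Agent.Helper45.MalcevNegA
import Pool.Agent.Helper45.MalcevNegB

namespace Pool.Agent.Helper45

open Monoid

/-! ### the permutation model -/

/-- height of a word -/
def ht (w : List Bool) : ℤ := (w.map (fun c => if c then (1 : ℤ) else -1)).sum

@[simp] lemma ht_nil : ht [] = 0 := rfl
@[simp] lemma ht_cons (c : Bool) (w : List Bool) : ht (c :: w) = (if c then (1 : ℤ) else -1) + ht w := by
  simp [ht]

lemma ht_bound (w : List Bool) : -(w.length : ℤ) ≤ ht w ∧ ht w ≤ w.length := by
  induction w with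
  | nil => simp
  | cons c w ih =>
    rw [ht_cons, List.length_cons]
    push_cast
    cases c <;> simp <;> omega

def pa : Equiv.Perm ℤ := Equiv.addRight 1
def pb : Equiv.Perm ℤ := pa⁻¹ * Equiv.swap 0 1
def pc (K : ℤ) : Equiv.Perm ℤ := pa * Equiv.swap K (K + 1)
def pd (K : ℤ) : Equiv.Perm ℤ := Equiv.swap K (K + 1) * pb

lemma pa_apply (i : ℤ) : pa i = i + 1 := rfl
lemma pa_inv_apply (i : ℤ) : pa⁻¹ i = i - 1 := rfl

lemma pb_apply (i : ℤ) : pb i = if i = 0 then 0 else if i = 1 then -1 else i - 1 := by
  rw [pb, Equiv.Perm.mul_apply, pa_inv_apply, Equiv.swap_apply_def]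
  split_ifs <;> omega

lemma pc_apply (K i : ℤ) : pc K i = if i = K then K + 2 else if i = K + 1 then K + 1 else i + 1 := by
  rw [pc, Equiv.Perm.mul_apply, pa_apply, Equiv.swap_apply_def]
  split_ifs <;> omega

lemma pd_apply (K i : ℤ) (hK : 2 ≤ K) : pd K i = if i = 0 then 0 else if i = 1 then -1 else
    if i = K + 1 then K + 1 else if i = K + 2 then K else i - 1 := by
  rw [pd, Equiv.Perm.mul_apply, Equiv.swap_apply_def, pb_apply]
  split_ifs <;> omega

def zz (K i : ℤ) : ℤ := if i ≤ K then i else i - 1

def Wab (c : Bool) : Equiv.Perm ℤ := if c then pa else pb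
def Wcd (K : ℤ) (c : Bool) : Equiv.Perm ℤ := if c then pc K else pd K

lemma W_high (w : List Bool) : ∀ j : ℤ, w.length + 2 ≤ j → val Wab w j = j + ht w := by
  induction w with
  | nil => intro j _; simp
  | cons c w ih =>
    intro j hj
    rw [List.length_cons] at hj
    push_cast at hj
    rw [val_cons, Equiv.Perm.mul_apply, ih j (by omega), ht_cons]
    have := ht_bound w
    cases c
    · simp only [Wab, Bool.false_eq_true, if_false]
      rw [pb_apply]
      split_ifs <;> omega
    · simp only [Wab, if_true]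
      rw [pa_apply]
      omega

lemma W_fix (K : ℤ) (hK : 2 ≤ K) (w : List Bool) : val (Wcd K) w (K + 1) = K + 1 := by
  induction w with
  | nil => simp
  | cons c w ih =>
    rw [val_cons, Equiv.Perm.mul_apply, ih]
    cases c
    · simp only [Wcd, Bool.false_eq_true, if_false]
      rw [pd_apply K _ hK]
      split_ifs <;> omega
    · simp only [Wcd, if_true]
      rw [pc_apply]
      split_ifs <;> omega

lemma W_step (K : ℤ) (hK : 2 ≤ K) (c : Bool) (i : ℤ) (hi : i ≠ K + 1) :
    Wcd K c i ≠ K + 1 ∧ zz K (Wcd K c i) = Wab c (zz K i) := by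
  cases c
  · simp only [Wcd, Wab, Bool.false_eq_true, if_false]
    rw [pd_apply K _ hK, pb_apply]
    unfold zz
    split_ifs <;> omega
  · simp only [Wcd, Wab, if_true]
    rw [pc_apply, pa_apply]
    unfold zz
    split_ifs <;> omega

lemma W_zz (K : ℤ) (hK : 2 ≤ K) (w : List Bool) (i : ℤ) (hi : i ≠ K + 1) :
    val (Wcd K) w i ≠ K + 1 ∧ zz K (val (Wcd K) w i) = val Wab w (zz K i) := by
  induction w with
  | nil => simpa using hi
  | cons c w ih =>
    rw [val_cons, val_cons, Equiv.Perm.mul_apply, Equiv.Perm.mul_apply]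
    obtain ⟨h1, h2⟩ := W_step K hK c _ ih.1
    exact ⟨h1, by rw [h2, ih.2]⟩

lemma W_bal (K : ℤ) (w : List Bool) (hw : ht w = 0) (hK : w.length + 2 ≤ K) :
    val (Wcd K) w = val Wab w := by
  have hK2 : 2 ≤ K := by omega
  have hfix : ∀ j, K ≤ j → val Wab w j = j := by
    intro j hj
    rw [W_high w j (by omega), hw, add_zero]
  have hlow : ∀ j, j < K → val Wab w j < K := by
    intro j hj
    by_contra hcon
    have h1 := hfix _ (not_lt.1 hcon)
    have h2 := (val Wab w).injective h1
    omega
  apply Equiv.ext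
  intro i
  by_cases hi : i = K + 1
  · subst hi
    rw [W_fix K hK2, hfix _ (by omega)]
  · obtain ⟨h1, h2⟩ := W_zz K hK2 w i hi
    rcases lt_trichotomy i K with h | h | h
    · have h3 : zz K i = i := by unfold zz; rw [if_pos h.le]
      rw [h3] at h2
      have h4 := hlow i h
      unfold zz at h2
      split_ifs at h2 <;> omega
    · have h3 : zz K i = i := by unfold zz; rw [if_pos h.le]
      rw [h3] at h2
      have h4 := hfix i h.ge
      unfold zz at h2
      split_ifs at h2 <;> omega
    · have h3 : zz K i = i - 1 := by unfold zz; rw [if_neg (by omega)]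
      have h4 := hfix (i - 1) (by omega)
      have h5 := hfix i (by omega)
      rw [h3, h4] at h2
      unfold zz at h2
      split_ifs at h2 <;> omega

lemma pa_pow (k : ℕ) (j : ℤ) : (pa ^ k) j = j + k := by
  induction k with
  | zero => simp
  | succ k ih => rw [pow_succ', Equiv.Perm.mul_apply, ih, pa_apply]; push_cast; ring

lemma pb_pow (k : ℕ) (j : ℤ) (hj : k + 1 ≤ j) : (pb ^ k) j = j - k := by
  induction k with
  | zero => simp
  | succ k ih =>
    push_cast at hj
    rw [pow_succ', Equiv.Perm.mul_apply, ih (by omega), pb_apply]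
    push_cast
    split_ifs <;> omega

/-- the word `a^(n+1) b^(n+1)` -/
def bw (n : ℕ) : List Bool := List.replicate (n + 1) true ++ List.replicate (n + 1) false

lemma ht_append (v w : List Bool) : ht (v ++ w) = ht v + ht w := by
  simp [ht]

lemma ht_bw (n : ℕ) : ht (bw n) = 0 := by
  rw [bw, ht_append]
  simp [ht, List.map_replicate, List.sum_replicate]

lemma val_bw (n : ℕ) : val Wab (bw n) ((n : ℤ) + 1) = n := by
  rw [bw, val_append, Equiv.Perm.mul_apply]
  have h1 : val Wab (List.replicate (n + 1) false) = pb ^ (n + 1) := by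
    simp [val, Wab]
  have h2 : val Wab (List.replicate (n + 1) true) = pa ^ (n + 1) := by
    simp [val, Wab]
  rw [h1, h2, pow_succ' pb, Equiv.Perm.mul_apply, pb_pow n _ le_rfl, pa_pow]
  have : ((n : ℤ) + 1 - n) = 1 := by ring
  rw [this, pb_apply]
  norm_num

end Pool.Agent.Helper45
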