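import Mathlib
import Pool.Agent.Helper45.MalcevNegC

namespace Pool.Agent.Helper45

open Monoid

/-! ### the group `F₃ × ℤ` and its twisted syllables -/

abbrev F3 := FreeGroup (Fin 3)
abbrev MM := F3 × Multiplicative ℤ

def ga : F3 := FreeGroup.of 0
def gb : F3 := FreeGroup.of 1
def gg : F3 := FreeGroup.of 2

def lam (i : Fin 4) : MM :=
  match i with
  | 0 => (ga, Multiplicative.ofAdd 1)
  | 1 => (gb, Multiplicative.ofAdd (-1))
  | 2 => (gg⁻¹ * ga * gg, 1)
  | 3 => (gg⁻¹ * gb * gg, 1)

/-- `g` or `1` -/
def tw (e : Bool) : MM := if e then (gg, 1) else 1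

def lAB (c : Bool) : Fin 4 := if c then 0 else 1
def lCD (c : Bool) : Fin 4 := if c then 2 else 3

abbrev KK := FreeGroup (ℤ × Bool)

def shEquiv : (ℤ × Bool) ≃ (ℤ × Bool) := Equiv.prodCongr (Equiv.subRight 1) (Equiv.refl _)

def sig : MulAut KK := FreeGroup.freeGroupCongr shEquiv

abbrev GG := SemidirectProduct KK (Multiplicative ℤ) (zpowersHom (MulAut KK) sig)

def tt : GG := SemidirectProduct.inr (Multiplicative.ofAdd 1)

lemma tt_conj (k : KK) : tt * SemidirectProduct.inl k * tt⁻¹ = SemidirectProduct.inl (sig k) := by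
  have := SemidirectProduct.inl_aut (φ := zpowersHom (MulAut KK) sig) (Multiplicative.ofAdd 1) k
  simp only [zpowersHom_apply, toAdd_ofAdd, zpow_one] at this
  rw [this]
  simp [tt]

def Theta : F3 →* GG := FreeGroup.lift (fun i : Fin 3 =>
  match i with
  | 0 => SemidirectProduct.inl (FreeGroup.of (0, true))
  | 1 => SemidirectProduct.inl (FreeGroup.of (0, false))
  | 2 => tt)

def nu (i : Fin 4) : ℤ × Bool :=
  match i with
  | 0 => (0, true)
  | 1 => (0, false)
  | 2 => (1, true)
  | 3 => (1, false)

lemma sig_of (p : ℤ × Bool) : sig (FreeGroup.of p) = FreeGroup.of (p.1 - 1, p.2) := by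
  simp only [sig, shEquiv, FreeGroup.freeGroupCongr_apply, FreeGroup.map.of]
  rfl

lemma Theta_conj (x : Bool) : Theta (gg⁻¹ * (if x then ga else gb) * gg) =
    SemidirectProduct.inl (FreeGroup.of (1, x)) := by
  have h1 : Theta gg = tt := by simp [Theta, gg]
  have h2 : Theta (if x then ga else gb) = SemidirectProduct.inl (FreeGroup.of (0, x)) := by
    cases x <;> simp [Theta, ga, gb]
  rw [map_mul, map_mul, map_inv, h1, h2]
  have h3 := tt_conj (FreeGroup.of (1, x))
  rw [sig_of] at h3
  simp only [sub_self] at h3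
  rw [← h3]
  group

lemma Theta_lam (i : Fin 4) : Theta (lam i).1 = SemidirectProduct.inl (FreeGroup.of (nu i)) := by
  fin_cases i
  · simp [lam, nu, Theta, ga]
  · simp [lam, nu, Theta, gb]
  · exact Theta_conj true
  · exact Theta_conj false

lemma Theta_val (l : List (Fin 4)) :
    Theta (val lam l).1 = SemidirectProduct.inl (pos (l.map nu)) := by
  induction l with
  | nil => simp
  | cons i l ih => rw [val_cons, Prod.fst_mul, map_mul, ih, Theta_lam]; simp

/-- shift the index by `-1` if `e` -/
def sh (e : Bool) (p : ℤ × Bool) : ℤ × Bool := if e then (p.1 - 1, p.2) else p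

lemma sig_pos (l : List (ℤ × Bool)) : sig (pos l) = pos (l.map (sh true)) := by
  induction l with
  | nil => simp
  | cons i l ih => simp only [pos_cons, map_mul, ih, List.map_cons, sig_of, sh, if_true]

lemma Theta_tw (e : Bool) : Theta (tw e).1 = if e then tt else 1 := by
  cases e <;> simp [tw, Theta, gg]

lemma tw_conj (e : Bool) (l : List (ℤ × Bool)) :
    Theta (tw e).1 * SemidirectProduct.inl (pos l) =
      SemidirectProduct.inl (pos (l.map (sh e))) * Theta (tw e).1 := by
  rw [Theta_tw]
  cases e
  · have : sh false = id := by funext p; simp [sh]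
    simp [this]
  · simp only [if_true]
    rw [← sig_pos, ← tt_conj]
    group

lemma toWord_pos {B : Type*} [DecidableEq B] (l : List B) :
    (pos l).toWord = l.map (fun b => (b, true)) := by
  induction l with
  | nil => simp
  | cons x l ih =>
    rw [pos_cons, FreeGroup.toWord_mul, ih, FreeGroup.toWord_of]
    apply FreeGroup.IsReduced.reduce_eq
    show FreeGroup.IsReduced (List.map (fun b => (b, true)) (x :: l))
    rw [FreeGroup.IsReduced]
    apply List.Pairwise.isChain
    rw [List.pairwise_map]
    exact List.pairwise_of_forall (fun _ _ _ => rfl)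

lemma pos_inj {B : Type*} [DecidableEq B] {l l' : List B} (h : pos l = pos l') : l = l' := by
  have := congrArg FreeGroup.toWord h
  rw [toWord_pos, toWord_pos] at this
  exact List.map_injective_iff.2 (fun a b hab => (Prod.mk.inj hab).1) this

lemma Theta_tw_left (e d : Bool) : (Theta (tw e).1 * Theta (tw d).1).left = 1 := by
  cases e <;> cases d <;> simp [Theta_tw, tt]

lemma inl_mul_left (k : KK) (q : GG) (hq : q.left = 1) :
    ((SemidirectProduct.inl k : GG) * q).left = k := by
  rw [SemidirectProduct.mul_left, hq]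
  simp

lemma syll_left {e d e' d' : Bool} {l l' : List (Fin 4)}
    (h : tw e * val lam l * tw d = tw e' * val lam l' * tw d') :
    l.map (sh e ∘ nu) = l'.map (sh e' ∘ nu) := by
  have h1 := congrArg (fun p : MM => Theta p.1) h
  simp only [Prod.fst_mul, map_mul, Theta_val, tw_conj] at h1
  have h2 := congrArg (fun p : GG => p.left) h1
  simp only [mul_assoc] at h2
  rw [inl_mul_left _ _ (Theta_tw_left e d), inl_mul_left _ _ (Theta_tw_left e' d')] at h2
  have h3 := pos_inj h2
  simpa only [List.map_map] using h3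

lemma tw_snd (e : Bool) : (tw e).2 = 1 := by cases e <;> simp [tw]

lemma syll_right {e d e' d' : Bool} {l l' : List (Fin 4)}
    (h : tw e * val lam l * tw d = tw e' * val lam l' * tw d') :
    (val lam l).2 = (val lam l').2 := by
  have h1 := congrArg (fun p : MM => p.2) h
  simpa [Prod.snd_mul, tw_snd] using h1

lemma nu_injective : Function.Injective nu := by
  intro i j
  fin_cases i <;> fin_cases j <;> simp [nu]

lemma sh_injective (e : Bool) : Function.Injective (sh e) := by
  intro p q h
  cases e
  · simpa [sh] using h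
  · simp only [sh, if_true, Prod.mk.injEq] at h
    exact Prod.ext (by linarith [h.1]) h.2

lemma nu_sh {i j : Fin 4} (h : nu i = sh true (nu j)) : ∃ c : Bool, i = lAB c ∧ j = lCD c := by
  revert h
  fin_cases i <;> fin_cases j <;> simp [nu, sh, lAB, lCD]

lemma map_nu_sh : ∀ {l l' : List (Fin 4)} (_ : l.map nu = l'.map (sh true ∘ nu)),
    ∃ w : List Bool, l = w.map lAB ∧ l' = w.map lCD
  | [], [], _ => ⟨[], rfl, rfl⟩
  | [], _ :: _, h => by simp at h
  | _ :: _, [], h => by simp at h
  | i :: l, j :: l', h => by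
    simp only [List.map_cons, List.cons.injEq, Function.comp] at h
    obtain ⟨c, hi, hj⟩ := nu_sh h.1
    obtain ⟨w, hw, hw'⟩ := map_nu_sh (l := l) (l' := l') h.2
    exact ⟨c :: w, by rw [hi, hw]; rfl, by rw [hj, hw']; rfl⟩

lemma val_lAB_snd (w : List Bool) : (val lam (w.map lAB)).2 = Multiplicative.ofAdd (ht w) := by
  induction w with
  | nil => simp
  | cons c w ih =>
    rw [List.map_cons, val_cons, Prod.snd_mul, ih, ht_cons, ofAdd_add]
    cases c <;> simp [lAB, lam]

lemma val_lCD_snd (w : List Bool) : (val lam (w.map lCD)).2 = 1 := by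
  induction w with
  | nil => simp
  | cons c w ih =>
    rw [List.map_cons, val_cons, Prod.snd_mul, ih]
    cases c <;> simp [lCD, lam]

/-- the possible coincidences of twisted syllables -/
theorem syll {e d e' d' : Bool} {l l' : List (Fin 4)}
    (h : tw e * val lam l * tw d = tw e' * val lam l' * tw d') :
    l = l' ∨ ∃ w : List Bool, ht w = 0 ∧
      ((l = w.map lAB ∧ l' = w.map lCD) ∨ (l = w.map lCD ∧ l' = w.map lAB)) := by
  have h1 := syll_left h
  have h2 := syll_right h
  have hsh : sh false = id := by funext p; simp [sh]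
  cases e <;> cases e'
  · left
    exact List.map_injective_iff.2 ((sh_injective _).comp nu_injective) h1
  · right
    rw [hsh, Function.id_comp] at h1
    obtain ⟨w, rfl, rfl⟩ := map_nu_sh h1
    rw [val_lAB_snd, val_lCD_snd] at h2
    exact ⟨w, by simpa using h2, Or.inl ⟨rfl, rfl⟩⟩
  · right
    rw [hsh, Function.id_comp] at h1
    obtain ⟨w, rfl, rfl⟩ := map_nu_sh h1.symm
    rw [val_lAB_snd, val_lCD_snd] at h2
    exact ⟨w, by simpa using h2.symm, Or.inr ⟨rfl, rfl⟩⟩
  · left
    exact List.map_injective_iff.2 ((sh_injective _).comp nu_injective) h1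

/-- the value of a balanced word -/
lemma val_lAB_fst (w : List Bool) : (val lam (w.map lAB)).1 * gg = gg * (val lam (w.map lCD)).1 := by
  induction w with
  | nil => simp
  | cons c w ih =>
    rw [List.map_cons, List.map_cons, val_cons, val_cons, Prod.fst_mul, Prod.fst_mul, mul_assoc, ih,
      ← mul_assoc, ← mul_assoc]
    congr 1
    cases c <;> simp [lAB, lCD, lam, mul_assoc]

lemma val_bal (w : List Bool) (hw : ht w = 0) :
    val lam (w.map lAB) * tw true = tw true * val lam (w.map lCD) := by
  apply Prod.ext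
  · rw [Prod.fst_mul, Prod.fst_mul]
    simpa [tw] using val_lAB_fst w
  · rw [Prod.snd_mul, Prod.snd_mul, val_lAB_snd, val_lCD_snd, hw, tw_snd]
    simp

end Pool.Agent.Helper45
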