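import Mathlib
import Pool.Agent.Helper45.MalcevNegD

namespace Pool.Agent.Helper45

open Monoid

abbrev PP := Coprod (FreeMonoid Unit) MM
abbrev AA := Fin 4 ⊕ Fin 3

def XX : PP := Coprod.inl (FreeMonoid.of ())

def gen (a : AA) : PP :=
  match a with
  | Sum.inl i => Coprod.inr (lam i)
  | Sum.inr 0 => XX
  | Sum.inr 1 => Coprod.inr (tw true) * XX
  | Sum.inr 2 => XX * Coprod.inr (tw true)

def dl (j : Fin 3) : Bool := decide (j = 1)
def el (j : Fin 3) : Bool := decide (j = 2)

lemma gen_inr (j : Fin 3) :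
    gen (Sum.inr j) = Coprod.inr (tw (dl j)) * (XX * Coprod.inr (tw (el j))) := by
  fin_cases j
  · simp [gen, dl, el, tw]
  · simp [gen, dl, el, tw]
  · simp [gen, dl, el, tw]

/-- value in a monoid of a list of letters -/
def mval {A S : Type*} [Monoid S] (a : A → S) (l : List A) : S := (l.map a).prod

@[simp] lemma mval_nil {A S : Type*} [Monoid S] (a : A → S) : mval a [] = 1 := rfl
@[simp] lemma mval_cons {A S : Type*} [Monoid S] (a : A → S) (x : A) (l : List A) :
    mval a (x :: l) = a x * mval a l := by simp [mval]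
@[simp] lemma mval_append {A S : Type*} [Monoid S] (a : A → S) (l m : List A) :
    mval a (l ++ m) = mval a l * mval a m := by simp [mval]

lemma lift_eq_mval {A S : Type*} [Monoid S] (a : A → S) (w : FreeSemigroup A) :
    FreeSemigroup.lift a w = mval a (w.head :: w.tail) := by
  induction w using FreeSemigroup.recOnMul with
  | ih1 x => simp
  | ih2 x y _ hy =>
    rw [map_mul, hy]
    simp

lemma mval_inl (l : List (Fin 4)) : mval gen (l.map Sum.inl) = Coprod.inr (val lam l) := by
  induction l with
  | nil => simp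
  | cons i l ih => rw [List.map_cons, mval_cons, ih, val_cons, map_mul]; rfl

lemma ev_end (e : Bool) (l : List (Fin 4)) :
    evL MM (Coprod.inr (tw e) * mval gen (l.map Sum.inl)) [1] = [tw e * val lam l * tw false] := by
  rw [mval_inl, ← map_mul, evL_inr]
  rfl

lemma ev_sep (e : Bool) (l : List (Fin 4)) (j : Fin 3) (u : List AA) :
    evL MM (Coprod.inr (tw e) * mval gen (l.map Sum.inl ++ Sum.inr j :: u)) [1] =
      (tw e * val lam l * tw (dl j)) :: evL MM (Coprod.inr (tw (el j)) * mval gen u) [1] := by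
  rw [mval_append, mval_cons, mval_inl, gen_inr]
  have : (Coprod.inr (tw e) * (Coprod.inr (val lam l) *
      (Coprod.inr (tw (dl j)) * (XX * Coprod.inr (tw (el j))) * mval gen u)) : PP) =
      Coprod.inr (tw e * val lam l * tw (dl j)) * (XX * (Coprod.inr (tw (el j)) * mval gen u)) := by
    simp only [map_mul, mul_assoc]
  rw [this, evL_mul, evL_mul]
  unfold XX
  rw [evL_inl_of, evL_inr, mul_one]

lemma split_word (l : List AA) : ∃ α : List (Fin 4), l = α.map Sum.inl ∨
    ∃ j u, l = α.map Sum.inl ++ Sum.inr j :: u := by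
  induction l with
  | nil => exact ⟨[], Or.inl rfl⟩
  | cons x l ih =>
    rcases x with i | j
    · obtain ⟨α, h | ⟨j, u, h⟩⟩ := ih
      · exact ⟨i :: α, Or.inl (by rw [h]; rfl)⟩
      · exact ⟨i :: α, Or.inr ⟨j, u, by rw [h]; rfl⟩⟩
    · exact ⟨[], Or.inr ⟨j, l, rfl⟩⟩

/-- the permutation model on letters `inl` -/
def phi0 (K : ℤ) (i : Fin 4) : Equiv.Perm ℤ :=
  match i with
  | 0 => pa
  | 1 => pb
  | 2 => pc K
  | 3 => pd K

/-- the permutation model -/
def phi (K : ℤ) (a : AA) : Equiv.Perm ℤ :=
  match a with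
  | Sum.inl i => phi0 K i
  | Sum.inr _ => 1

lemma val_phi_inl (K : ℤ) (l : List (Fin 4)) : val (phi K) (l.map Sum.inl) = val (phi0 K) l := by
  induction l with
  | nil => simp
  | cons i l ih => rw [List.map_cons, val_cons, ih, val_cons]; rfl

lemma val_phi0_lAB (K : ℤ) (w : List Bool) : val (phi0 K) (w.map lAB) = val Wab w := by
  induction w with
  | nil => simp
  | cons c w ih =>
    rw [List.map_cons, val_cons, ih, val_cons]
    cases c <;> rfl

lemma val_phi0_lCD (K : ℤ) (w : List Bool) : val (phi0 K) (w.map lCD) = val (Wcd K) w := by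
  induction w with
  | nil => simp
  | cons c w ih =>
    rw [List.map_cons, val_cons, ih, val_cons]
    cases c <;> rfl

lemma phi_syll {e d e' d' : Bool} {l l' : List (Fin 4)} (N : ℕ) (hl : l.length ≤ N)
    (hl' : l'.length ≤ N) (h : tw e * val lam l * tw d = tw e' * val lam l' * tw d') :
    val (phi0 (N + 2)) l = val (phi0 (N + 2)) l' := by
  rcases syll h with h | ⟨w, hw, ⟨h1, h2⟩ | ⟨h1, h2⟩⟩
  · rw [h]
  · rw [h1, List.length_map] at hl
    rw [h1, h2, val_phi0_lAB, val_phi0_lCD, W_bal _ w hw]
    have : (w.length : ℤ) ≤ N := by exact_mod_cast hl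
    omega
  · rw [h1, List.length_map] at hl
    rw [h1, h2, val_phi0_lAB, val_phi0_lCD, W_bal _ w hw]
    have : (w.length : ℤ) ≤ N := by exact_mod_cast hl
    omega

theorem phi_rel (N : ℕ) : ∀ (n : ℕ) (l l' : List AA) (e e' : Bool), l.length ≤ n →
    l.length ≤ N → l'.length ≤ N →
    evL MM (Coprod.inr (tw e) * mval gen l) [1] = evL MM (Coprod.inr (tw e') * mval gen l') [1] →
    val (phi (N + 2)) l = val (phi (N + 2)) l' := by
  intro n
  induction n with
  | zero =>
    intro l l' e e' hn hl hl' h
    have hl0 : l = [] := by simpa using hn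
    subst hl0
    obtain ⟨α', h' | ⟨j', u', h'⟩⟩ := split_word l'
    · rw [h'] at h hl' ⊢
      have h0 := ev_end e []
      rw [List.map_nil] at h0
      rw [h0, ev_end] at h
      rw [List.length_map] at hl'
      have := phi_syll N (by simp) hl' (List.cons.inj h).1
      rw [val_phi_inl, ← this]
      simp
    · rw [h'] at h
      have h0 := ev_end e []
      rw [List.map_nil] at h0
      rw [h0, ev_sep] at h
      exact absurd (List.cons.inj h).2.symm (evL_ne_nil _ _ (by simp))
  | succ n ih =>
    intro l l' e e' hn hl hl' h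
    obtain ⟨α, h1 | ⟨j, u, h1⟩⟩ := split_word l <;>
    obtain ⟨α', h' | ⟨j', u', h'⟩⟩ := split_word l'
    · rw [h1] at h hl ⊢
      rw [h'] at h hl' ⊢
      rw [ev_end, ev_end] at h
      rw [List.length_map] at hl hl'
      rw [val_phi_inl, val_phi_inl, phi_syll N hl hl' (List.cons.inj h).1]
    · rw [h1, h'] at h
      rw [ev_end, ev_sep] at h
      exact absurd (List.cons.inj h).2.symm (evL_ne_nil _ _ (by simp))
    · rw [h1, h'] at h
      rw [ev_end, ev_sep] at h
      exact absurd (List.cons.inj h).2 (evL_ne_nil _ _ (by simp))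
    · rw [h1] at h hl hn ⊢
      rw [h'] at h hl' ⊢
      rw [ev_sep, ev_sep] at h
      rw [List.length_append, List.length_map, List.length_cons] at hl hl' hn
      obtain ⟨h2, h3⟩ := List.cons.inj h
      have h4 := ih u u' _ _ (by omega) (by omega) (by omega) h3
      have h5 := phi_syll N (by omega) (by omega) h2
      rw [val_append, val_append, val_cons, val_cons, val_phi_inl, val_phi_inl, h4, h5]
      rfl

/-- the finitely generated subsemigroup -/
def SS : Subsemigroup PP := Subsemigroup.closure (Set.range gen)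

def tau (a : AA) : SS := ⟨gen a, Subsemigroup.subset_closure ⟨a, rfl⟩⟩

lemma tau_closure : Subsemigroup.closure (Set.range tau) = ⊤ := by
  have : Set.range tau = ((↑) : SS → PP) ⁻¹' (Set.range gen) := by
    ext x
    constructor
    · rintro ⟨i, rfl⟩; exact ⟨i, rfl⟩
    · rintro ⟨i, hi⟩; exact ⟨i, Subtype.ext hi⟩
  rw [this]
  exact Subsemigroup.closure_closure_coe_preimage

lemma tau_lift (w : FreeSemigroup AA) :
    ((FreeSemigroup.lift tau w : SS) : PP) = mval gen (w.head :: w.tail) := by
  rw [← lift_eq_mval]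
  induction w using FreeSemigroup.recOnMul with
  | ih1 x => simp [tau]
  | ih2 x y hx hy =>
    rw [map_mul, map_mul, ← hx, ← hy]
    rfl

theorem not_malcev_SS : ¬ HasFiniteMalcevPresentation SS := by
  apply not_hasFiniteMalcevPresentation tau tau_closure
  intro N
  refine ⟨Equiv.Perm ℤ, inferInstance, phi (N + 2), ?_, ?_⟩
  · intro u v hu hv huv
    rw [lift_eq_val, lift_eq_val]
    have h1 : mval gen (u.head :: u.tail) = mval gen (v.head :: v.tail) := by
      rw [← tau_lift, ← tau_lift, huv]
    refine phi_rel N N _ _ false false ?_ ?_ ?_ ?_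
    · exact hu
    · exact hu
    · exact hv
    · rw [h1]
  · let w := bw (N + 2)
    obtain ⟨u, hu⟩ := exists_word (Sum.inr 0 :: ((w.map lAB).map Sum.inl ++ [Sum.inr 1]) : List AA)
      (by simp)
    obtain ⟨v, hv⟩ := exists_word (Sum.inr 2 :: ((w.map lCD).map Sum.inl ++ [Sum.inr 0]) : List AA)
      (by simp)
    refine ⟨u, v, ?_, ?_⟩
    · apply Subtype.ext
      rw [tau_lift, tau_lift, hu, hv]
      simp only [mval_cons, mval_append, mval_inl, mval_nil, mul_one]
      have h1 : gen (Sum.inr 0) = XX := rfl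
      have h2 : gen (Sum.inr 1) = Coprod.inr (tw true) * XX := rfl
      have h3 : gen (Sum.inr 2) = XX * Coprod.inr (tw true) := rfl
      have h4 := congrArg (Coprod.inr : MM →* PP) (val_bal w (ht_bw _))
      rw [map_mul, map_mul] at h4
      rw [h1, h2, h3, ← mul_assoc (Coprod.inr (val lam (w.map lAB))), h4]
      simp only [mul_assoc]
    · rw [lift_eq_val, lift_eq_val, hu, hv]
      simp only [val_cons, val_append, val_phi_inl, val_nil, mul_one]
      have h1 : phi (N + 2) (Sum.inr 0) = 1 := rfl
      have h2 : phi (N + 2) (Sum.inr 1) = 1 := rfl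
      have h3 : phi (N + 2) (Sum.inr 2) = 1 := rfl
      rw [h1, h2, h3, one_mul, one_mul, mul_one, mul_one, val_phi0_lAB, val_phi0_lCD]
      intro h
      have h4 := congrArg (fun p : Equiv.Perm ℤ => p ((((N + 2 : ℕ)) : ℤ) + 1)) h
      simp only [w] at h4
      rw [val_bw] at h4
      have h5 := W_fix ((N : ℤ) + 2) (by omega) (bw (N + 2))
      have h6 : (((N + 2 : ℕ)) : ℤ) = (N : ℤ) + 2 := by push_cast; ring
      rw [h6, h5] at h4
      omega

theorem not_malcevCoherent_coprod : ¬ MalcevCoherent (Coprod (FreeMonoid Unit) MM) := by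
  intro h
  exact not_malcev_SS (h SS ⟨Set.range gen, Set.finite_range _, rfl⟩)

theorem malcevCoherent_MM : MalcevCoherent MM := by
  apply malcevCoherent_prod
  · exact ⟨⊤, inferInstance, inferInstance⟩
  · exact ⟨⊤, inferInstance, inferInstance⟩

end Pool.Agent.Helper45
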